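import Pool.Agent.Q188.SA.Defs

/-!
# Closed special alpha-limit sets when no interval shrinks to a point
-/

set_option autoImplicit false

open Set Filter Topology Function

namespace Pool.Agent.Q188.SA

/-- forward orbit of the right-hand interval -/
def RO (F : ℝ → ℝ) (y ε : ℝ) : Set ℝ := ⋃ i : ℕ, F^[i] '' Ioo y (y + ε)

/-- the component of the forward orbit which contains the interval -/
def MM (F : ℝ → ℝ) (y ε : ℝ) : Set ℝ := connectedComponentIn (RO F y ε) (y + ε / 2)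

section

variable {F : ℝ → ℝ} {x y ε ε' : ℝ}

lemma Ioo_subset_RO : Ioo y (y + ε) ⊆ RO F y ε := fun w hw =>
  mem_iUnion.2 ⟨0, w, hw, rfl⟩

lemma mid_mem (hε : 0 < ε) : y + ε / 2 ∈ Ioo y (y + ε) := ⟨by linarith, by linarith⟩

lemma Ioo_subset_MM (hε : 0 < ε) : Ioo y (y + ε) ⊆ MM F y ε :=
  isPreconnected_Ioo.subset_connectedComponentIn (mid_mem hε) Ioo_subset_RO

lemma MM_preconnected : IsPreconnected (MM F y ε) := isPreconnected_connectedComponentIn

lemma MM_ordConnected : OrdConnected (MM F y ε) := MM_preconnected.ordConnected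

lemma MM_subset_RO : MM F y ε ⊆ RO F y ε := connectedComponentIn_subset _ _

lemma RO_image (n : ℕ) {w : ℝ} (hw : w ∈ RO F y ε) : F^[n] w ∈ RO F y ε := by
  obtain ⟨i, u, hu, rfl⟩ := mem_iUnion.1 hw
  exact mem_iUnion.2 ⟨n + i, u, hu, iterate_add_apply _ _ _ _⟩

lemma subset_MM {T : Set ℝ} (hT : IsPreconnected T) (hsub : T ⊆ RO F y ε) {w : ℝ} (hw : w ∈ T)
    (hwM : w ∈ MM F y ε) : T ⊆ MM F y ε := by
  unfold MM at hwM ⊢
  rw [connectedComponentIn_eq hwM]
  exact hT.subset_connectedComponentIn hw hsub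

lemma MM_image (hF : Continuous F) {n : ℕ} {w : ℝ} (hw : w ∈ F^[n] '' MM F y ε)
    (hwM : w ∈ MM F y ε) : F^[n] '' MM F y ε ⊆ MM F y ε := by
  refine subset_MM (MM_preconnected.image _ (hF.iterate n).continuousOn) ?_ hw hwM
  rintro _ ⟨v, hv, rfl⟩
  exact RO_image n (MM_subset_RO hv)

lemma RO_mono (h : ε' ≤ ε) : RO F y ε' ⊆ RO F y ε := by
  intro w hw
  obtain ⟨i, u, hu, rfl⟩ := mem_iUnion.1 hw
  exact mem_iUnion.2 ⟨i, u, ⟨hu.1, hu.2.trans_le (by linarith)⟩, rfl⟩

lemma MM_mono (hε' : 0 < ε') (h : ε' ≤ ε) : MM F y ε' ⊆ MM F y ε := by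
  have h1 := Ioo_subset_MM (F := F) (y := y) hε' (mid_mem hε')
  refine subset_MM MM_preconnected (MM_subset_RO.trans (RO_mono h)) h1 ?_
  exact Ioo_subset_MM (hε'.trans_le h) ⟨by linarith, by linarith⟩

/-- the first return of the component -/
noncomputable def per (F : ℝ → ℝ) (y ε : ℝ) : ℕ :=
  sInf {n | 1 ≤ n ∧ ∃ w ∈ F^[n] '' MM F y ε, w ∈ MM F y ε}

/-- there is a return -/
def Ret (F : ℝ → ℝ) (y ε : ℝ) : Prop := ∃ n : ℕ, 1 ≤ n ∧ ∃ w ∈ F^[n] '' MM F y ε, w ∈ MM F y ε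

lemma per_spec (h : Ret F y ε) :
    1 ≤ per F y ε ∧ ∃ w ∈ F^[per F y ε] '' MM F y ε, w ∈ MM F y ε :=
  Nat.sInf_mem (s := {n | 1 ≤ n ∧ ∃ w ∈ F^[n] '' MM F y ε, w ∈ MM F y ε}) h

lemma per_image (hF : Continuous F) (h : Ret F y ε) {i : ℕ} (hi : per F y ε ∣ i) {w : ℝ}
    (hw : w ∈ MM F y ε) : F^[i] w ∈ MM F y ε := by
  obtain ⟨q, rfl⟩ := hi
  obtain ⟨-, v, hv, hvM⟩ := per_spec h
  have h1 := MM_image hF hv hvM
  induction q with
  | zero => simpa using hw
  | succ q ih =>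
    rw [mul_add, mul_one, add_comm, iterate_add_apply]
    exact h1 ⟨_, ih, rfl⟩

lemma per_dvd (hF : Continuous F) (h : Ret F y ε) {i : ℕ} {w : ℝ}
    (hw : w ∈ F^[i] '' MM F y ε) (hwM : w ∈ MM F y ε) : per F y ε ∣ i := by
  obtain ⟨v, hv, rfl⟩ := hw
  by_contra hcon
  have hr : 1 ≤ i % per F y ε := by
    rw [Nat.one_le_iff_ne_zero]
    exact fun h0 => hcon (Nat.dvd_of_mod_eq_zero h0)
  have h1 : F^[per F y ε * (i / per F y ε)] v ∈ MM F y ε :=
    per_image hF h (Dvd.intro _ rfl) hv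
  have h2 : F^[i] v = F^[i % per F y ε] (F^[per F y ε * (i / per F y ε)] v) := by
    rw [← iterate_add_apply, Nat.mod_add_div]
  have h3 : per F y ε ≤ i % per F y ε :=
    Nat.sInf_le ⟨hr, _, ⟨_, h1, h2.symm⟩, hwM⟩
  have h4 := Nat.mod_lt i (show 0 < per F y ε by have := (per_spec h).1; omega)
  omega

lemma per_cross (hF : Continuous F) (h : Ret F y ε) {r s : ℕ} {w : ℝ}
    (hr : w ∈ F^[r] '' MM F y ε) (hs : w ∈ F^[s] '' MM F y ε) : r ≡ s [MOD per F y ε] := by
  obtain ⟨v, hv, hvw⟩ := hr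
  obtain ⟨v', hv', hvw'⟩ := hs
  have hp := (per_spec h).1
  set p := per F y ε with hpdef
  have h0 : s * (p - 1) + s = p * s := by
    obtain ⟨q, hq⟩ : ∃ q, p = q + 1 := ⟨p - 1, by omega⟩
    rw [hq]; simp only [Nat.add_sub_cancel]; ring
  have h1 : F^[s * (p - 1)] w ∈ MM F y ε := by
    rw [← hvw', ← iterate_add_apply, h0]
    exact per_image hF h (Dvd.intro _ rfl) hv'
  have h2 : F^[s * (p - 1)] w ∈ F^[s * (p - 1) + r] '' MM F y ε := by
    rw [← hvw, ← iterate_add_apply]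
    exact ⟨v, hv, rfl⟩
  have h3 : p ∣ s * (p - 1) + r := per_dvd hF h h2 h1
  have h4 : p ∣ s * (p - 1) + s := by rw [h0]; exact Dvd.intro _ rfl
  have h5 : s * (p - 1) + r ≡ s * (p - 1) + s [MOD p] :=
    ((Nat.modEq_zero_iff_dvd).2 h3).trans ((Nat.modEq_zero_iff_dvd).2 h4).symm
  exact Nat.ModEq.add_left_cancel' _ h5

lemma per_dvd_per (hF : Continuous F) (h : Ret F y ε) (h' : Ret F y ε') (hε' : 0 < ε')
    (hle : ε' ≤ ε) : per F y ε ∣ per F y ε' := by
  obtain ⟨-, w, ⟨v, hv, hvw⟩, hw⟩ := per_spec h'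
  exact per_dvd hF h ⟨v, MM_mono hε' hle hv, hvw⟩ (MM_mono hε' hle hw)

end

/-- the branch property -/
def Br (F : ℝ → ℝ) (x y ε : ℝ) : Prop :=
  ∃ z : ℕ → ℝ, z 0 = x ∧ (∀ k, F (z (k + 1)) = z k) ∧ ∃ᶠ n in atTop, z n ∈ Ioo y (y + ε)

lemma Br.ret {F : ℝ → ℝ} {x y ε : ℝ} (hε : 0 < ε) (h : Br F x y ε) : Ret F y ε := by
  obtain ⟨z, -, hz, hf⟩ := h
  obtain ⟨n, -, hn⟩ := (frequently_atTop.1 hf) 0
  obtain ⟨n', hn', hn''⟩ := (frequently_atTop.1 hf) (n + 1)
  refine ⟨n' - n, by omega, z n, ⟨z n', Ioo_subset_MM hε hn'', ?_⟩, Ioo_subset_MM hε hn⟩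
  have := branch_iterate hz (n' - n) n
  rwa [show n + (n' - n) = n' by omega] at this

/-- the solenoidal case -/
lemma solenoidal {F : ℝ → ℝ} (hF : Continuous F) {A B : ℝ} (hAB : ∀ t, F t ∈ Icc A B)
    {x y : ℝ} (hbr : ∀ ε : ℝ, 0 < ε → Br F x y ε)
    (hsm : ∀ η : ℝ, 0 < η → ∃ ε : ℝ, 0 < ε ∧ ∀ v ∈ MM F y ε, |v - y| < η) : y ∈ SA F x := by
  set e : ℕ → ℝ := fun k => 1 / ((k : ℝ) + 1) with he
  have hepos : ∀ k, 0 < e k := fun k => by simp only [he]; positivity
  have heanti : ∀ j k, j ≤ k → e k ≤ e j := by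
    intro j k hjk
    simp only [he]
    exact one_div_le_one_div_of_le (by positivity) (by exact_mod_cast Nat.succ_le_succ hjk)
  have hret : ∀ k, Ret F y (e k) := fun k => (hbr _ (hepos k)).ret (hepos k)
  choose b hb0 hb hbf using fun k => hbr (e k) (hepos k)
  obtain ⟨φ, hφ, hφk⟩ := extraction_forall_of_frequently hbf
  -- the compact sets
  let S : ℕ → Set (ℕ → ℝ) := fun k =>
    {z | (∀ n, z n ∈ Icc A B) ∧ z 0 = x ∧ (∀ n, F (z (n + 1)) = z n) ∧
      ∀ j, j ≤ k → z (φ j) ∈ closure (MM F y (e j))}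
  have hSclosed : ∀ k, IsClosed (S k) := by
    intro k
    have h1 : IsClosed {z : ℕ → ℝ | ∀ n, z n ∈ Icc A B} := by
      simp only [ofPred_forall]
      exact isClosed_iInter fun n => isClosed_Icc.preimage (continuous_apply n)
    have h2 : IsClosed {z : ℕ → ℝ | z 0 = x} := isClosed_eq (continuous_apply 0) continuous_const
    have h3 : IsClosed {z : ℕ → ℝ | ∀ n, F (z (n + 1)) = z n} := by
      simp only [ofPred_forall]
      exact isClosed_iInter fun n => isClosed_eq (hF.comp (continuous_apply (n + 1)))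
        (continuous_apply n)
    have h4 : IsClosed {z : ℕ → ℝ | ∀ j, j ≤ k → z (φ j) ∈ closure (MM F y (e j))} := by
      simp only [ofPred_forall]
      exact isClosed_iInter fun j => isClosed_iInter fun _ =>
        isClosed_closure.preimage (continuous_apply (φ j))
    exact h1.inter (h2.inter (h3.inter h4))
  have hScompact : IsCompact (S 0) := by
    have h1 : IsCompact (Set.pi univ fun _ : ℕ => Icc A B) :=
      isCompact_univ_pi fun _ => isCompact_Icc
    exact h1.of_isClosed_subset (hSclosed 0) fun z hz n _ => hz.1 n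
  have hSanti : ∀ k, S (k + 1) ⊆ S k := fun k z hz =>
    ⟨hz.1, hz.2.1, hz.2.2.1, fun j hj => hz.2.2.2 j (by omega)⟩
  have hSne : ∀ k, (S k).Nonempty := by
    intro k
    refine ⟨b k, fun n => ?_, hb0 k, hb k, fun j hj => subset_closure ?_⟩
    · rw [← hb k n]; exact hAB _
    · obtain ⟨N, hN, hNM⟩ := (frequently_atTop.1 (hbf k)) (φ j)
      have h1 : b k N ∈ MM F y (e j) :=
        MM_mono (hepos k) (heanti j k hj) (Ioo_subset_MM (hepos k) hNM)
      have h2 : x ∈ F^[N] '' MM F y (e j) := by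
        refine ⟨b k N, h1, ?_⟩
        have := branch_iterate (hb k) N 0
        rwa [zero_add, hb0] at this
      have h3 : x ∈ F^[φ j] '' MM F y (e j) := by
        refine ⟨b j (φ j), Ioo_subset_MM (hepos j) (hφk j), ?_⟩
        have := branch_iterate (hb j) (φ j) 0
        rwa [zero_add, hb0] at this
      have h4 := per_cross hF (hret j) h3 h2
      have h5 : per F y (e j) ∣ N - φ j := (Nat.modEq_iff_dvd' hN).1 h4
      have h6 := per_image hF (hret j) h5 h1
      have h7 := branch_iterate (hb k) (N - φ j) (φ j)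
      rw [show φ j + (N - φ j) = N by omega] at h7
      rwa [h7] at h6
  obtain ⟨z, hz⟩ := IsCompact.nonempty_iInter_of_sequence_nonempty_isCompact_isClosed S hSanti hSne
    hScompact hSclosed
  have hz' := fun k => mem_iInter.1 hz k
  refine ⟨z, (hz' 0).2.1, (hz' 0).2.2.1, φ, hφ, ?_⟩
  rw [Metric.tendsto_atTop]
  intro η hη
  obtain ⟨ε, hε, hsmε⟩ := hsm (η / 2) (by positivity)
  obtain ⟨k₀, hk₀⟩ := exists_nat_one_div_lt hε
  refine ⟨k₀, fun k hk => ?_⟩
  have h1 := (hz' k).2.2.2 k le_rfl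
  have h2 : MM F y (e k) ⊆ {v | |v - y| ≤ η / 2} := by
    intro v hv
    exact (hsmε v (MM_mono (hepos k) ((heanti k₀ k hk).trans hk₀.le) hv)).le
  have h3 : IsClosed {v : ℝ | |v - y| ≤ η / 2} :=
    isClosed_le (by fun_prop) continuous_const
  have h4 : |z (φ k) - y| ≤ η / 2 := closure_minimal h2 h3 h1
  simp only [comp_apply, Real.dist_eq]
  linarith

/-! ### Lengths -/

/-- long intervals have long images -/
def Long (F : ℝ → ℝ) (A B : ℝ) : Prop :=
  ∀ ε : ℝ, 0 < ε → ∃ δ : ℝ, 0 < δ ∧ δ ≤ ε ∧ ∀ a b : ℝ, A ≤ a → b ≤ B → δ ≤ b - a →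
    ∃ s ∈ Icc a b, ∃ t ∈ Icc a b, δ ≤ |F s - F t|

lemma long_iterate {F : ℝ → ℝ} (hF : Continuous F) {A B δ : ℝ} (hAB : ∀ t, F t ∈ Icc A B)
    (hL : ∀ a b : ℝ, A ≤ a → b ≤ B → δ ≤ b - a → ∃ s ∈ Icc a b, ∃ t ∈ Icc a b, δ ≤ |F s - F t|)
    {M : Set ℝ} {a b : ℝ} (ha : A ≤ a) (hb : b ≤ B) (hab : δ ≤ b - a) (hM : Icc a b ⊆ M) (i : ℕ) :
    ∃ u v, A ≤ u ∧ v ≤ B ∧ δ ≤ v - u ∧ Icc u v ⊆ F^[i] '' M := by
  induction i with
  | zero => exact ⟨a, b, ha, hb, hab, by simpa using hM⟩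
  | succ i ih =>
    obtain ⟨u, v, hu, hv, huv, hsub⟩ := ih
    obtain ⟨s, hs, t, ht, hst⟩ := hL u v hu hv huv
    have h1 : uIcc (F s) (F t) ⊆ F '' Icc u v :=
      (intermediate_value_uIcc hF.continuousOn).trans (image_mono (uIcc_subset_Icc hs ht))
    have h2 : uIcc (F s) (F t) ⊆ F^[i + 1] '' M := by
      rw [iterate_succ', image_comp]
      exact h1.trans (image_mono hsub)
    refine ⟨min (F s) (F t), max (F s) (F t), le_min (hAB s).1 (hAB t).1,
      max_le (hAB s).2 (hAB t).2, ?_, h2⟩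
    rw [max_sub_min_eq_abs']
    exact hst

lemma per_bound {F : ℝ → ℝ} (hF : Continuous F) {A B δ y ε : ℝ} (hAB : ∀ t, F t ∈ Icc A B)
    (hδ : 0 < δ)
    (hL : ∀ a b : ℝ, A ≤ a → b ≤ B → δ ≤ b - a → ∃ s ∈ Icc a b, ∃ t ∈ Icc a b, δ ≤ |F s - F t|)
    (hret : Ret F y ε) {a b : ℝ} (ha : A ≤ a) (hb : b ≤ B) (hab : δ ≤ b - a)
    (haM : a ∈ MM F y ε) (hbM : b ∈ MM F y ε) : per F y ε ≤ ⌊(B - A) / δ⌋₊ + 1 := by
  by_contra hcon
  push Not at hcon
  have hM : Icc a b ⊆ MM F y ε := MM_ordConnected.out haM hbM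
  choose u v hu hv huv hsub using long_iterate hF hAB hL ha hb hab hM
  obtain ⟨i, hi, j, hj, hij, hfl⟩ := Finset.exists_ne_map_eq_of_card_lt_of_maps_to
    (s := Finset.range (per F y ε)) (t := Finset.range (⌊(B - A) / δ⌋₊ + 1))
    (f := fun i => ⌊(u i - A) / δ⌋₊) (by simpa using hcon) (by
      intro i _
      simp only [Finset.coe_range, mem_Iio]
      refine Nat.lt_succ_of_le (Nat.floor_le_floor ?_)
      refine div_le_div_of_nonneg_right ?_ hδ.le
      have := huv i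
      have := hv i
      linarith)
  rw [Finset.mem_range] at hi hj
  have hi0 : 0 ≤ (u i - A) / δ := div_nonneg (by have := hu i; linarith) hδ.le
  have hj0 : 0 ≤ (u j - A) / δ := div_nonneg (by have := hu j; linarith) hδ.le
  have h1 := Nat.floor_le hi0
  have h2 := Nat.lt_floor_add_one ((u i - A) / δ)
  have h3 := Nat.floor_le hj0
  have h4 := Nat.lt_floor_add_one ((u j - A) / δ)
  rw [hfl] at h1 h2
  have h5 : |u i - u j| ≤ δ := by
    have e1 : u i - A = (u i - A) / δ * δ := by field_simp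
    have e2 : u j - A = (u j - A) / δ * δ := by field_simp
    rw [abs_le]
    constructor <;> nlinarith
  have h6 : max (u i) (u j) ∈ F^[i] '' MM F y ε := by
    apply hsub i
    refine ⟨le_max_left _ _, max_le ?_ ?_⟩
    · have := huv i; linarith
    · have := huv i
      have := (abs_le.1 h5).1
      linarith
  have h7 : max (u i) (u j) ∈ F^[j] '' MM F y ε := by
    apply hsub j
    refine ⟨le_max_right _ _, max_le ?_ ?_⟩
    · have := huv j
      have := (abs_le.1 h5).2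
      linarith
    · have := huv j; linarith
  have h8 := per_cross hF hret h6 h7
  exact hij (Nat.ModEq.eq_of_lt_of_lt h8 hi hj)

/-! ### The case of bounded periods -/

/-- a set of points, each of which has preimages in the set arbitrarily close to `q` -/
lemma chain_SA {F : ℝ → ℝ} {x q z : ℝ} {W : Set ℝ} {s : ℕ} (hs : 1 ≤ s) (hzW : z ∈ W)
    (hzx : F^[s] z = x)
    (hstep : ∀ w ∈ W, ∀ η : ℝ, 0 < η → ∃ u ∈ W, |u - q| < η ∧ ∃ l : ℕ, 1 ≤ l ∧ F^[l] u = w) :
    q ∈ SA F x := by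
  have hstep : ∀ (n : ℕ) (w : {w : ℝ // w ∈ W}), ∃ u : {w : ℝ // w ∈ W},
      |u.1 - q| < 1 / (n + 1) ∧ ∃ l : ℕ, 1 ≤ l ∧ F^[l] u.1 = w.1 := by
    intro n w
    obtain ⟨u, hu, h1, h2⟩ := hstep w.1 w.2 (1 / (n + 1)) (by positivity)
    exact ⟨⟨u, hu⟩, h1, h2⟩
  choose nxt hn1 hn2 using hstep
  let w : ℕ → {w : ℝ // w ∈ W} := fun n => Nat.rec ⟨z, hzW⟩ (fun n w => nxt n w) n
  have hw : ∀ n, w (n + 1) = nxt n (w n) := fun n => rfl
  have hl : ∀ n, ∃ l : ℕ, 1 ≤ l ∧ F^[l] (w (n + 1)).1 = (w n).1 := fun n => by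
    rw [hw]; exact hn2 n (w n)
  choose l hl1 hl2 using hl
  let v : ℕ → ℝ := fun n => Nat.casesOn n x (fun n => (w n).1)
  let m : ℕ → ℕ := fun n => Nat.casesOn n s (fun n => l n)
  have hm : ∀ k, 1 ≤ m k := by
    intro k
    cases k with
    | zero => exact hs
    | succ k => exact hl1 k
  have hv : ∀ k, F^[m k] (v (k + 1)) = v k := by
    intro k
    cases k with
    | zero => exact hzx
    | succ k => exact hl2 k
  obtain ⟨b, hb0, hb, hbN⟩ := concat hm hv
  have hmono := psum_strictMono hm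
  refine ⟨b, hb0, hb, fun j => psum m (j + 2), fun i j hij => hmono (by omega), ?_⟩
  have h1 : ∀ j, (b ∘ fun j => psum m (j + 2)) j = (w (j + 1)).1 := by
    intro j
    exact hbN (j + 2)
  rw [tendsto_congr h1]
  rw [tendsto_iff_dist_tendsto_zero]
  refine squeeze_zero (fun _ => dist_nonneg) (fun j => ?_) tendsto_one_div_add_atTop_nhds_zero_nat
  rw [Real.dist_eq, hw]
  exact (hn1 j (w j)).le

/-- all the components reach a point to the right of `y` -/
lemma case_one {F : ℝ → ℝ} {x y z ε₀ : ℝ} (hε₀ : 0 < ε₀) (hbr : ∀ ε : ℝ, 0 < ε → Br F x y ε)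
    (hz : y < z) (hzM : ∀ ε : ℝ, 0 < ε → ε ≤ ε₀ → z ∈ MM F y ε) : y ∈ SA F x := by
  obtain ⟨b, hb0, hb, hbf⟩ := hbr (z - y) (by linarith)
  obtain ⟨n, hn, hbn⟩ := (frequently_atTop.1 hbf) 1
  rw [add_sub_cancel] at hbn
  refine chain_SA (W := Ioo y z) hn hbn ?_ ?_
  · have := branch_iterate hb n 0
    rwa [zero_add, hb0] at this
  · intro w hw η hη
    have h0 : 0 < min ε₀ (min (w - y) η) := lt_min hε₀ (lt_min (by linarith [hw.1]) hη)
    set ε := min ε₀ (min (w - y) η) with hε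
    have h1 : ε ≤ ε₀ := min_le_left _ _
    have h2 : ε ≤ w - y := (min_le_right _ _).trans (min_le_left _ _)
    have h3 : ε ≤ η := (min_le_right _ _).trans (min_le_right _ _)
    have h4 : w ∈ MM F y ε := by
      refine MM_ordConnected.out (Ioo_subset_MM h0 (mid_mem h0)) (hzM ε h0 h1) ⟨?_, hw.2.le⟩
      linarith
    obtain ⟨i, u, hu, hui⟩ := mem_iUnion.1 (MM_subset_RO h4)
    refine ⟨u, ⟨hu.1, ?_⟩, ?_, i, ?_, hui⟩
    · have := hu.2
      have := hw.2
      linarith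
    · rw [abs_of_pos (by linarith [hu.1])]
      linarith [hu.2]
    · rcases Nat.eq_zero_or_pos i with h | h
      · rw [h] at hui
        have h5 : u = w := hui
        have := hu.2
        linarith
      · exact h

/-- otherwise the point is periodic -/
lemma case_two {F : ℝ → ℝ} (hF : Continuous F) {A B x y ε₀ : ℝ} (hAB : ∀ t, F t ∈ Icc A B)
    (hyA : A ≤ y) (hε₀ : 0 < ε₀) (hbr : ∀ ε : ℝ, 0 < ε → Br F x y ε) {m : ℕ}
    (hper : ∀ ε : ℝ, 0 < ε → ε ≤ ε₀ → per F y ε = m)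
    (hN : ∀ z : ℝ, y < z → ∃ ε : ℝ, 0 < ε ∧ ε ≤ ε₀ ∧ z ∉ MM F y ε) :
    F^[m] (F^[m] y) = y := by
  set g := F^[m] with hg
  have hgc : Continuous g := hF.iterate m
  have hret : ∀ ε : ℝ, 0 < ε → Ret F y ε := fun ε hε => (hbr ε hε).ret hε
  have hgM : ∀ ε : ℝ, 0 < ε → ε ≤ ε₀ → ∀ i : ℕ, ∀ w ∈ MM F y ε, g^[i] w ∈ MM F y ε := by
    intro ε hε hε' i w hw
    rw [hg, ← iterate_mul]
    refine per_image hF (hret ε hε) ?_ hw
    rw [hper ε hε hε']
    exact Dvd.intro _ rfl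
  -- upper bounds
  have hup : ∀ z : ℝ, y < z → ∃ ε : ℝ, 0 < ε ∧ ε ≤ ε₀ ∧ ∀ v ∈ MM F y ε, v < z := by
    intro z hz
    obtain ⟨ε, hε, hε', hzM⟩ := hN z hz
    refine ⟨ε, hε, hε', fun v hv => ?_⟩
    by_contra hcon
    push Not at hcon
    apply hzM
    have h1 : y + min ε (z - y) / 2 ∈ MM F y ε := by
      apply Ioo_subset_MM hε
      have h2 : 0 < min ε (z - y) := lt_min hε (by linarith)
      have h3 : min ε (z - y) ≤ ε := min_le_left _ _
      constructor <;> linarith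
    refine MM_ordConnected.out h1 hv ⟨?_, hcon⟩
    have h3 : min ε (z - y) ≤ z - y := min_le_right _ _
    linarith
  -- eventual lower bounds
  set L : Set ℝ := {w | ∃ ε : ℝ, 0 < ε ∧ ε ≤ ε₀ ∧ ∀ v ∈ MM F y ε, w ≤ v} with hL
  have hLy : ∀ w ∈ L, w ≤ y := by
    rintro w ⟨ε, hε, -, h⟩
    by_contra hcon
    push Not at hcon
    have h2 : 0 < min ε (w - y) := lt_min hε (by linarith)
    have h3 : min ε (w - y) ≤ ε := min_le_left _ _
    have h4 : min ε (w - y) ≤ w - y := min_le_right _ _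
    have h1 := h (y + min ε (w - y) / 2) (Ioo_subset_MM hε ⟨by linarith, by linarith⟩)
    linarith
  have hLne : A ∈ L := by
    refine ⟨ε₀, hε₀, le_rfl, fun v hv => ?_⟩
    obtain ⟨i, u, hu, rfl⟩ := mem_iUnion.1 (MM_subset_RO hv)
    cases i with
    | zero => exact hyA.trans hu.1.le
    | succ i => rw [iterate_succ_apply']; exact (hAB _).1
  have hLb : BddAbove L := ⟨y, hLy⟩
  set c := sSup L with hc
  have hcy : c ≤ y := csSup_le ⟨A, hLne⟩ hLy
  have hK : ∀ ε : ℝ, 0 < ε → ε ≤ ε₀ → ∀ t ∈ Icc c y, t ∈ closure (MM F y ε) := by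
    intro ε hε hε' t ht
    rcases eq_or_lt_of_le hcy with h | h
    · have h1 : t = y := le_antisymm ht.2 (h ▸ ht.1)
      rw [h1]
      refine closure_mono (Ioo_subset_MM hε) ?_
      rw [closure_Ioo (by linarith)]
      exact ⟨le_rfl, by linarith⟩
    · have h1 : Ioo c y ⊆ MM F y ε := by
        intro s hs
        have h2 : s ∉ L := fun h => absurd (le_csSup hLb h) (not_le.2 hs.1)
        have h3 : ∃ v ∈ MM F y ε, v < s := by
          by_contra hcon
          push Not at hcon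
          exact h2 ⟨ε, hε, hε', hcon⟩
        obtain ⟨v, hv, hvs⟩ := h3
        refine MM_ordConnected.out hv (Ioo_subset_MM hε (mid_mem hε)) ⟨hvs.le, ?_⟩
        linarith [hs.2]
      refine closure_mono h1 ?_
      rw [closure_Ioo h.ne]
      exact ht
  have hK2 : ∀ t ∈ Icc c y, ∀ i : ℕ, g^[i] t ≤ y := by
    intro t ht i
    by_contra hcon
    push Not at hcon
    obtain ⟨ε, hε, hε', h⟩ := hup ((y + g^[i] t) / 2) (by linarith)
    have h1 : g^[i] t ∈ closure (MM F y ε) :=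
      map_mem_closure (hgc.iterate i) (hK ε hε hε' t ht) (fun w hw => hgM ε hε hε' i w hw)
    have h2 : g^[i] t ∈ Iic ((y + g^[i] t) / 2) :=
      closure_minimal (fun v hv => (h v hv).le) isClosed_Iic h1
    have h3 : g^[i] t ≤ (y + g^[i] t) / 2 := h2
    linarith
  have hnear : ∀ η : ℝ, 0 < η → ∃ ε : ℝ, 0 < ε ∧ ε ≤ ε₀ ∧ ε ≤ η ∧
      ∀ v ∈ MM F y ε, c - η < v ∧ v < y + η := by
    intro η hη
    obtain ⟨w, ⟨ε₁, h1, h1', h1''⟩, hw⟩ := exists_lt_of_lt_csSup ⟨A, hLne⟩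
      (show c - η < sSup L by rw [← hc]; linarith)
    obtain ⟨ε₂, h2, h2', h2''⟩ := hup (y + η) (by linarith)
    have h0 : 0 < min η (min ε₁ ε₂) := lt_min hη (lt_min h1 h2)
    refine ⟨min η (min ε₁ ε₂), h0, ?_, min_le_left _ _, fun v hv => ⟨?_, ?_⟩⟩
    · exact (min_le_right _ _).trans ((min_le_left _ _).trans h1')
    · exact hw.trans_le (h1'' v (MM_mono h0 ((min_le_right _ _).trans (min_le_left _ _)) hv))
    · exact h2'' v (MM_mono h0 ((min_le_right _ _).trans (min_le_right _ _)) hv)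
  -- segments
  have hseg : ∀ η : ℝ, 0 < η → ∃ (u : ℝ) (a : ℕ), 1 ≤ a ∧ |u - y| < η ∧ |g^[a] u - y| < η ∧
      ∀ i, i ≤ a → (|g^[i] u - c| < η ∨ |g^[i] u - y| < η) := by
    intro η hη
    obtain ⟨ε, hε, hε', hεη, hM⟩ := hnear η hη
    obtain ⟨z, -, hz, hf⟩ := hbr ε hε
    obtain ⟨n, -, hn⟩ := (frequently_atTop.1 hf) 0
    obtain ⟨n', hn', hn''⟩ := (frequently_atTop.1 hf) (n + 1)
    have h1 : F^[n' - n] (z n') = z n := by
      have := branch_iterate hz (n' - n) n
      rwa [show n + (n' - n) = n' by omega] at this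
    have h2 : per F y ε ∣ n' - n :=
      per_dvd hF (hret ε hε) ⟨z n', Ioo_subset_MM hε hn'', h1⟩ (Ioo_subset_MM hε hn)
    rw [hper ε hε hε'] at h2
    obtain ⟨a, ha⟩ := h2
    have hga : g^[a] (z n') = z n := by
      rw [hg, ← iterate_mul, ← ha, h1]
    refine ⟨z n', a, ?_, ?_, ?_, fun i hi => ?_⟩
    · rcases Nat.eq_zero_or_pos a with h | h
      · rw [h] at ha; omega
      · exact h
    · rw [abs_of_pos (by linarith [hn''.1])]
      linarith [hn''.2]
    · rw [hga, abs_of_pos (by linarith [hn.1])]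
      linarith [hn.2]
    · have h3 := hgM ε hε hε' i (z n') (Ioo_subset_MM hε hn'')
      have h4 := hM _ h3
      have h5 : g^[i] (z n') ∉ Icc c y := by
        intro h
        have h6 := hK2 _ h (a - i)
        rw [← iterate_add_apply, show a - i + i = a by omega, hga] at h6
        linarith [hn.1]
      rcases lt_or_ge (g^[i] (z n')) c with h | h
      · left
        rw [abs_of_neg (by linarith)]
        linarith [h4.1]
      · right
        have h6 : y < g^[i] (z n') := by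
          by_contra hcon
          push Not at hcon
          exact h5 ⟨h, hcon⟩
        rw [abs_of_pos (by linarith)]
        linarith [h4.2]
  have hi : g y = c ∨ g y = y := by
    by_contra hcon
    push Not at hcon
    have h1 : 0 < |g y - c| := abs_pos.2 (sub_ne_zero.2 hcon.1)
    have h2 : 0 < |g y - y| := abs_pos.2 (sub_ne_zero.2 hcon.2)
    set α := min |g y - c| |g y - y| with hα
    have hα0 : 0 < α := lt_min h1 h2
    obtain ⟨δ, hδ, hδ'⟩ := Metric.continuous_iff.1 hgc y (α / 2) (by positivity)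
    obtain ⟨u, a, ha, hu, -, hs⟩ := hseg (min δ (α / 2)) (lt_min hδ (by positivity))
    have h3 := hδ' u (by rw [Real.dist_eq]; exact hu.trans_le (min_le_left _ _))
    rw [Real.dist_eq] at h3
    have h4 := hs 1 ha
    rw [iterate_one] at h4
    have h5 : min δ (α / 2) ≤ α / 2 := min_le_right _ _
    rcases h4 with h | h
    · have h6 : |g y - c| ≤ |g u - g y| + |g u - c| := by
        rw [abs_sub_comm (g u) (g y)]
        exact abs_sub_le (g y) (g u) c
      have h7 : α ≤ |g y - c| := min_le_left _ _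
      linarith
    · have h6 : |g y - y| ≤ |g u - g y| + |g u - y| := by
        rw [abs_sub_comm (g u) (g y)]
        exact abs_sub_le (g y) (g u) y
      have h7 : α ≤ |g y - y| := min_le_right _ _
      linarith
  have hii : g c = y ∨ g y = y := by
    by_contra hcon
    push Not at hcon
    have h1 : 0 < |g c - y| := abs_pos.2 (sub_ne_zero.2 hcon.1)
    have h2 : 0 < |g y - y| := abs_pos.2 (sub_ne_zero.2 hcon.2)
    set α := min |g c - y| |g y - y| with hα
    have hα0 : 0 < α := lt_min h1 h2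
    obtain ⟨δ₁, hδ₁, hδ₁'⟩ := Metric.continuous_iff.1 hgc c (α / 2) (by positivity)
    obtain ⟨δ₂, hδ₂, hδ₂'⟩ := Metric.continuous_iff.1 hgc y (α / 2) (by positivity)
    obtain ⟨u, a, ha, -, hu, hs⟩ := hseg (min (min δ₁ δ₂) (α / 2))
      (lt_min (lt_min hδ₁ hδ₂) (by positivity))
    obtain ⟨a, rfl⟩ : ∃ a', a = a' + 1 := ⟨a - 1, by omega⟩
    have h4 := hs a (Nat.le_succ a)
    rw [iterate_succ_apply'] at hu
    have h5 : min (min δ₁ δ₂) (α / 2) ≤ α / 2 := min_le_right _ _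
    have h6 : min (min δ₁ δ₂) (α / 2) ≤ δ₁ := (min_le_left _ _).trans (min_le_left _ _)
    have h7 : min (min δ₁ δ₂) (α / 2) ≤ δ₂ := (min_le_left _ _).trans (min_le_right _ _)
    set t := g^[a] u with ht
    rcases h4 with h | h
    · have h8 := hδ₁' t (by rw [Real.dist_eq]; linarith)
      rw [Real.dist_eq] at h8
      have h9 : |g c - y| ≤ |g t - g c| + |g t - y| := by
        rw [abs_sub_comm (g t) (g c)]
        exact abs_sub_le (g c) (g t) y
      have h10 : α ≤ |g c - y| := min_le_left _ _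
      linarith
    · have h8 := hδ₂' t (by rw [Real.dist_eq]; linarith)
      rw [Real.dist_eq] at h8
      have h9 : |g y - y| ≤ |g t - g y| + |g t - y| := by
        rw [abs_sub_comm (g t) (g y)]
        exact abs_sub_le (g y) (g t) y
      have h10 : α ≤ |g y - y| := min_le_right _ _
      linarith
  rcases hi with h | h
  · rcases hii with h' | h'
    · rw [h, h']
    · rw [h', h']
  · rw [h, h]

/-! ### The main lemma -/

lemma SA_range {F : ℝ → ℝ} {A B : ℝ} (hAB : ∀ t, F t ∈ Icc A B) {x y : ℝ} (hy : y ∈ SA F x) :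
    y ∈ Icc A B := by
  obtain ⟨z, -, hz, N, -, hlim⟩ := hy
  refine isClosed_Icc.mem_of_tendsto hlim (Eventually.of_forall fun j => ?_)
  change z (N j) ∈ Icc A B
  rw [← hz]
  exact hAB _

lemma right {F : ℝ → ℝ} (hF : Continuous F) {A B : ℝ} (hAB : ∀ t, F t ∈ Icc A B)
    (hlong : Long F A B) {x y : ℝ}
    (hyS : ∀ ε : ℝ, 0 < ε → ∃ y' ∈ SA F x, y' ∈ Ioo y (y + ε)) : y ∈ SA F x := by
  have hbr : ∀ ε : ℝ, 0 < ε → Br F x y ε := by
    intro ε hε
    obtain ⟨y', ⟨z, hz0, hz, N, hN, hlim⟩, hy'⟩ := hyS ε hε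
    refine ⟨z, hz0, hz, ?_⟩
    rw [frequently_atTop]
    intro n
    have h1 : ∀ᶠ j in atTop, (z ∘ N) j ∈ Ioo y (y + ε) := hlim (isOpen_Ioo.mem_nhds hy')
    obtain ⟨j, hj, hjn⟩ := (h1.and (eventually_ge_atTop n)).exists
    exact ⟨N j, hjn.trans (hN.id_le j), hj⟩
  have hyA : A ≤ y := by
    by_contra hcon
    push Not at hcon
    obtain ⟨y', hy', h⟩ := hyS (A - y) (by linarith)
    have := (SA_range hAB hy').1
    have := h.2
    linarith
  have hyB : y < B := by
    obtain ⟨y', hy', h⟩ := hyS 1 one_pos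
    exact h.1.trans_le (SA_range hAB hy').2
  have hret : ∀ ε : ℝ, 0 < ε → Ret F y ε := fun ε hε => (hbr ε hε).ret hε
  by_cases hS : ∀ Bd : ℕ, ∃ ε : ℝ, 0 < ε ∧ Bd < per F y ε
  · refine solenoidal hF hAB hbr fun η hη => ?_
    obtain ⟨δ, hδ, hδη, hL⟩ := hlong (η / 2) (by positivity)
    obtain ⟨ε, hε, hεp⟩ := hS (⌊(B - A) / δ⌋₊ + 1)
    have h0 : 0 < min ε (min (B - y) (η / 2)) :=
      lt_min hε (lt_min (by linarith) (by positivity))
    set ε' := min ε (min (B - y) (η / 2)) with hε'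
    have h1 : ε' ≤ ε := min_le_left _ _
    have h2 : ε' ≤ B - y := (min_le_right _ _).trans (min_le_left _ _)
    have h3 : ε' ≤ η / 2 := (min_le_right _ _).trans (min_le_right _ _)
    have h4 : per F y ε ≤ per F y ε' := by
      refine Nat.le_of_dvd ?_ (per_dvd_per hF (hret ε hε) (hret ε' h0) h0 h1)
      have := (per_spec (hret ε' h0)).1
      omega
    have hsub : ∀ v ∈ MM F y ε', v ∈ Icc A B := by
      intro v hv
      obtain ⟨i, u, hu, rfl⟩ := mem_iUnion.1 (MM_subset_RO hv)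
      cases i with
      | zero =>
        refine ⟨hyA.trans hu.1.le, ?_⟩
        have := hu.2
        change u ≤ B
        linarith
      | succ i => rw [iterate_succ_apply']; exact hAB _
    refine ⟨ε', h0, fun v hv => ?_⟩
    by_contra hcon
    push Not at hcon
    have hp : y + ε' / 2 ∈ MM F y ε' := Ioo_subset_MM h0 (mid_mem h0)
    have h5 : δ ≤ |v - (y + ε' / 2)| := by
      have h6 : |v - y| ≤ |v - (y + ε' / 2)| + |(y + ε' / 2) - y| := abs_sub_le _ _ _
      rw [show (y + ε' / 2) - y = ε' / 2 by ring, abs_of_pos (by positivity : 0 < ε' / 2)] at h6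
      linarith
    have h6 := per_bound hF hAB hδ hL (hret ε' h0) (a := min v (y + ε' / 2))
      (b := max v (y + ε' / 2)) (le_min (hsub v hv).1 (hsub _ hp).1)
      (max_le (hsub v hv).2 (hsub _ hp).2) (by rw [max_sub_min_eq_abs']; exact h5)
      (by rcases min_choice v (y + ε' / 2) with h | h <;> rw [h] <;> assumption)
      (by rcases max_choice v (y + ε' / 2) with h | h <;> rw [h] <;> assumption)
    omega
  · push Not at hS
    obtain ⟨Bd, hBd⟩ := hS
    set P : Set ℕ := {n | ∃ ε : ℝ, 0 < ε ∧ per F y ε = n} with hP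
    have hPne : P.Nonempty := ⟨_, 1, one_pos, rfl⟩
    have hPb : BddAbove P := ⟨Bd, by rintro _ ⟨ε, hε, rfl⟩; exact hBd ε hε⟩
    obtain ⟨ε₀, hε₀, hmax⟩ := Nat.sSup_mem hPne hPb
    have hper : ∀ ε : ℝ, 0 < ε → ε ≤ ε₀ → per F y ε = per F y ε₀ := by
      intro ε hε hle
      apply le_antisymm
      · rw [hmax]
        exact le_csSup hPb ⟨ε, hε, rfl⟩
      · refine Nat.le_of_dvd ?_ (per_dvd_per hF (hret ε₀ hε₀) (hret ε hε) hε hle)
        have := (per_spec (hret ε hε)).1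
        omega
    have hm : 1 ≤ per F y ε₀ := (per_spec (hret ε₀ hε₀)).1
    by_cases hz : ∃ z, y < z ∧ ∀ ε : ℝ, 0 < ε → ε ≤ ε₀ → z ∈ MM F y ε
    · obtain ⟨z, hz, hzM⟩ := hz
      exact case_one hε₀ hbr hz hzM
    · push Not at hz
      have hyp := case_two hF hAB hyA hε₀ hbr hper hz
      have hT : y ∈ TT F x := by
        have h1 : y ∈ closure (TT F x) := by
          rw [Metric.mem_closure_iff]
          intro ε hε
          obtain ⟨y', hy', h⟩ := hyS ε hε
          refine ⟨y', SA_subset_TT F x hy', ?_⟩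
          rw [dist_comm, Real.dist_eq, abs_of_pos (by linarith [h.1])]
          linarith [h.2]
        rwa [(TT_closed F x).closure_eq] at h1
      refine periodic_mem_SA hF (p := 2 * per F y ε₀) (by omega) ?_ hT
      rw [two_mul, iterate_add_apply, hyp]

lemma mem_SA_refl {F : ℝ → ℝ} {x y : ℝ} (h : y ∈ SA F x) : -y ∈ SA (refl F) (-x) := by
  obtain ⟨z, hz0, hz, N, hN, hlim⟩ := h
  refine ⟨fun n => -z n, by simp [hz0], fun k => by simp [refl, hz], N, hN, ?_⟩
  exact hlim.neg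

lemma long_refl {F : ℝ → ℝ} {A B : ℝ} (h : Long F A B) : Long (refl F) (-B) (-A) := by
  intro ε hε
  obtain ⟨δ, hδ, hδε, hL⟩ := h ε hε
  refine ⟨δ, hδ, hδε, fun a b ha hb hab => ?_⟩
  obtain ⟨s, hs, t, ht, hst⟩ := hL (-b) (-a) (by linarith) (by linarith) (by linarith)
  refine ⟨-s, ⟨by linarith [hs.2], by linarith [hs.1]⟩, -t, ⟨by linarith [ht.2],
    by linarith [ht.1]⟩, ?_⟩
  simp only [refl, neg_neg]
  rw [show -F s - -F t = -(F s - F t) by ring, abs_neg]
  exact hst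

/-- all the special alpha-limit sets are closed if long intervals have long images -/
theorem SA_closed {F : ℝ → ℝ} (hF : Continuous F) {A B : ℝ} (hAB : ∀ t, F t ∈ Icc A B)
    (hlong : Long F A B) (x : ℝ) : IsClosed (SA F x) := by
  rw [← closure_subset_iff_isClosed]
  intro y hy
  by_contra hcon
  rw [Metric.mem_closure_iff] at hy
  by_cases hR : ∀ ε : ℝ, 0 < ε → ∃ y' ∈ SA F x, y' ∈ Ioo y (y + ε)
  · exact hcon (right hF hAB hlong hR)
  · push Not at hR
    obtain ⟨ε₁, hε₁, hR⟩ := hR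
    apply hcon
    have h1 : -y ∈ SA (refl F) (-x) := by
      refine right (refl_continuous hF) (A := -B) (B := -A) (fun t => ?_) (long_refl hlong) ?_
      · have := hAB (-t)
        exact ⟨neg_le_neg this.2, neg_le_neg this.1⟩
      · intro ε hε
        obtain ⟨y', hy', hd⟩ := hy (min ε ε₁) (lt_min hε hε₁)
        rw [Real.dist_eq] at hd
        have h2 := abs_lt.1 (hd.trans_le (min_le_left _ _))
        have h3 := abs_lt.1 (hd.trans_le (min_le_right _ _))
        have h4 : y' ≠ y := fun h => hcon (h ▸ hy')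
        have h5 : y' < y := by
          by_contra h6
          push Not at h6
          exact hR y' hy' ⟨lt_of_le_of_ne h6 h4.symm, by linarith [h3.1]⟩
        exact ⟨-y', mem_SA_refl hy', by linarith, by linarith [h2.2]⟩
    have h2 := mem_SA_refl h1
    rwa [refl_refl, neg_neg, neg_neg] at h2

end Pool.Agent.Q188.SA
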