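import Mathlib

/-!
# Special alpha-limit sets of continuous maps of the line: limits of backward branches
-/

set_option autoImplicit false

open Set Filter Topology Function

namespace Pool.Agent.Q188.SA

/-- accumulation points of the backward branches of `x` (on the whole line) -/
def SA (F : ℝ → ℝ) (x : ℝ) : Set ℝ :=
  {y | ∃ z : ℕ → ℝ, z 0 = x ∧ (∀ k, F (z (k + 1)) = z k) ∧
    ∃ N : ℕ → ℕ, StrictMono N ∧ Tendsto (z ∘ N) atTop (𝓝 y)}

/-- limits of `k_j`-th preimages of `x`, `k_j → ∞` -/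
def TT (F : ℝ → ℝ) (x : ℝ) : Set ℝ :=
  {y | ∀ δ : ℝ, 0 < δ → ∀ N : ℕ, ∃ k, N ≤ k ∧ ∃ u, |u - y| < δ ∧ F^[k] u = x}

lemma branch_iterate {F : ℝ → ℝ} {z : ℕ → ℝ} (hz : ∀ k, F (z (k + 1)) = z k) (j k : ℕ) :
    F^[j] (z (k + j)) = z k := by
  induction j generalizing k with
  | zero => rfl
  | succ j ih =>
    rw [iterate_succ_apply, show k + (j + 1) = (k + j) + 1 by ring, hz, ih]

lemma SA_subset_TT (F : ℝ → ℝ) (x : ℝ) : SA F x ⊆ TT F x := by
  rintro y ⟨z, hz0, hz, N, hN, hlim⟩ δ hδ n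
  rw [Metric.tendsto_atTop] at hlim
  obtain ⟨m, hm⟩ := hlim δ hδ
  refine ⟨N (max m n), (le_max_right m n).trans (hN.id_le _), z (N (max m n)), ?_, ?_⟩
  · have := hm (max m n) (le_max_left _ _)
    rwa [Real.dist_eq] at this
  · have := branch_iterate hz (N (max m n)) 0
    rwa [zero_add, hz0] at this

lemma SA_iterate {F : ℝ → ℝ} (hF : Continuous F) {x y : ℝ} (h : y ∈ SA F x) (i : ℕ) :
    F^[i] y ∈ SA F x := by
  obtain ⟨z, hz0, hz, N, hN, hlim⟩ := h
  have hshift : StrictMono fun j => N (j + i) - i := by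
    intro a b hab
    have h1 : N (a + i) < N (b + i) := hN (by omega)
    have h2 : a + i ≤ N (a + i) := hN.id_le _
    simp only
    omega
  refine ⟨z, hz0, hz, fun j => N (j + i) - i, hshift, ?_⟩
  have h1 : Tendsto (fun j => z (N (j + i))) atTop (𝓝 y) :=
    hlim.comp (tendsto_add_atTop_nat i)
  have h2 := ((hF.iterate i).tendsto y).comp h1
  refine h2.congr fun j => ?_
  have h3 : j + i ≤ N (j + i) := hN.id_le _
  have h4 := branch_iterate hz i (N (j + i) - i)
  rw [Nat.sub_add_cancel (by omega)] at h4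
  exact h4

lemma TT_map {F : ℝ → ℝ} (hF : Continuous F) {x y : ℝ} (h : y ∈ TT F x) : F y ∈ TT F x := by
  intro δ hδ N
  obtain ⟨δ', hδ', hc⟩ := Metric.continuous_iff.1 hF y δ hδ
  obtain ⟨k, hk, u, hu, hux⟩ := h δ' hδ' (N + 1)
  refine ⟨k - 1, by omega, F u, ?_, ?_⟩
  · have := hc u (by rwa [Real.dist_eq])
    rwa [Real.dist_eq] at this
  · rw [← iterate_succ_apply, Nat.succ_eq_add_one, Nat.sub_add_cancel (by omega)]
    exact hux

lemma TT_iterate {F : ℝ → ℝ} (hF : Continuous F) {x y : ℝ} (h : y ∈ TT F x) (i : ℕ) :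
    F^[i] y ∈ TT F x := by
  induction i with
  | zero => exact h
  | succ i ih => rw [iterate_succ_apply']; exact TT_map hF ih

lemma TT_closed (F : ℝ → ℝ) (x : ℝ) : IsClosed (TT F x) := by
  rw [← closure_subset_iff_isClosed]
  intro y hy δ hδ N
  obtain ⟨y', hy', hd⟩ := Metric.mem_closure_iff.1 hy (δ / 2) (by positivity)
  obtain ⟨k, hk, u, hu, hux⟩ := hy' (δ / 2) (by positivity) N
  refine ⟨k, hk, u, ?_, hux⟩
  rw [Real.dist_eq, abs_sub_comm] at hd
  calc |u - y| = |(u - y') + (y' - y)| := by ring_nf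
    _ ≤ |u - y'| + |y' - y| := abs_add_le _ _
    _ < δ := by linarith

/-! ### Concatenation of finite branches -/

/-- partial sums -/
def psum (m : ℕ → ℕ) (k : ℕ) : ℕ := ∑ i ∈ Finset.range k, m i

lemma psum_succ (m : ℕ → ℕ) (k : ℕ) : psum m (k + 1) = psum m k + m k :=
  Finset.sum_range_succ _ _

lemma psum_strictMono {m : ℕ → ℕ} (hm : ∀ k, 1 ≤ m k) : StrictMono (psum m) :=
  strictMono_nat_of_lt_succ fun k => by rw [psum_succ]; have := hm k; omega

lemma concat_aux {F : ℝ → ℝ} {v : ℕ → ℝ} {m : ℕ → ℕ} (hv : ∀ k, F^[m k] (v (k + 1)) = v k)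
    {k n : ℕ} (hn : n ≤ psum m k) (j : ℕ) :
    F^[psum m (k + j) - n] (v (k + j)) = F^[psum m k - n] (v k) := by
  induction j with
  | zero => rfl
  | succ j ih =>
    have hle : psum m k ≤ psum m (k + j) :=
      Finset.sum_le_sum_of_subset (Finset.range_mono (by omega))
    rw [← ih, ← add_assoc, psum_succ,
      show psum m (k + j) + m (k + j) - n = (psum m (k + j) - n) + m (k + j) by omega,
      iterate_add_apply, hv]

lemma concat {F : ℝ → ℝ} {v : ℕ → ℝ} {m : ℕ → ℕ} (hm : ∀ k, 1 ≤ m k)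
    (hv : ∀ k, F^[m k] (v (k + 1)) = v k) :
    ∃ z : ℕ → ℝ, z 0 = v 0 ∧ (∀ k, F (z (k + 1)) = z k) ∧ ∀ k, z (psum m k) = v k := by
  have hmono := psum_strictMono hm
  have hge : ∀ n, n ≤ psum m n := fun n => hmono.id_le n
  let z : ℕ → ℝ := fun n => F^[psum m n - n] (v n)
  have hz : ∀ n k, n ≤ psum m k → F^[psum m k - n] (v k) = z n := by
    intro n k hnk
    rcases le_total n k with h | h
    · have := concat_aux (F := F) hv (hge n) (k - n)
      rwa [Nat.add_sub_cancel' h] at this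
    · have := concat_aux (F := F) hv hnk (n - k)
      rw [Nat.add_sub_cancel' h] at this
      exact this.symm
  refine ⟨z, ?_, ?_, ?_⟩
  · have := hz 0 0 (Nat.zero_le _)
    simpa [psum] using this.symm
  · intro n
    have h1 := hz (n + 1) (n + 1) (hge _)
    have h2 := hz n (n + 1) ((Nat.le_succ n).trans (hge _))
    rw [← h1, ← h2, ← iterate_succ_apply' F]
    congr 2
    have := hge (n + 1)
    omega
  · intro k
    have := hz (psum m k) k le_rfl
    rw [Nat.sub_self] at this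
    exact this.symm

/-! ### Neighbourhood orbits of a fixed point -/

/-- the points reached from the `δ`-neighbourhood of `q` -/
def UU (g : ℝ → ℝ) (q δ : ℝ) : Set ℝ := {z | ∃ l : ℕ, ∃ u, |u - q| < δ ∧ g^[l] u = z}

/-- the points reached from every neighbourhood of `q` -/
def WW (g : ℝ → ℝ) (q : ℝ) : Set ℝ := {z | ∀ δ : ℝ, 0 < δ → z ∈ UU g q δ}

/-- `UU` is star-shaped about `q` -/
lemma UU_star {g : ℝ → ℝ} (hg : Continuous g) {q δ : ℝ} (hq : g q = q) {z y : ℝ}
    (hz : z ∈ UU g q δ) (hy : y ∈ uIcc q z) : y ∈ UU g q δ := by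
  obtain ⟨l, u, hu, rfl⟩ := hz
  have hc : ContinuousOn (g^[l]) (uIcc q u) := (hg.iterate l).continuousOn
  have h1 := intermediate_value_uIcc hc
  rw [Function.iterate_fixed hq l] at h1
  obtain ⟨w, hw, rfl⟩ := h1 hy
  refine ⟨l, w, ?_, rfl⟩
  exact (abs_sub_left_of_mem_uIcc hw).trans_lt hu

lemma WW_star {g : ℝ → ℝ} (hg : Continuous g) {q : ℝ} (hq : g q = q) {z y : ℝ}
    (hz : z ∈ WW g q) (hy : y ∈ uIcc q z) : y ∈ WW g q :=
  fun δ hδ => UU_star hg hq (hz δ hδ) hy

lemma WW_self {g : ℝ → ℝ} {q : ℝ} : q ∈ WW g q :=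
  fun δ hδ => ⟨0, q, by simpa using hδ, rfl⟩

lemma UU_iterate {g : ℝ → ℝ} {q δ : ℝ} {z : ℝ} (hz : z ∈ UU g q δ) (i : ℕ) :
    g^[i] z ∈ UU g q δ := by
  obtain ⟨l, u, hu, rfl⟩ := hz
  exact ⟨i + l, u, hu, iterate_add_apply _ _ _ _⟩

/-- the points reached from the right `δ`-neighbourhood of `q` -/
def RR (g : ℝ → ℝ) (q δ : ℝ) : Set ℝ := {z | ∃ l : ℕ, ∃ u ∈ Icc q (q + δ), g^[l] u = z}

lemma step_right {g : ℝ → ℝ} (hg : Continuous g) {q : ℝ} (hq : g q = q) {z : ℝ}
    (hz : z ∈ WW g q) (hzq : q < z) {η : ℝ} (hη : 0 < η) :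
    ∃ u ∈ WW g q, |u - q| < η ∧ ∃ l : ℕ, 1 ≤ l ∧ g^[l] u = z := by
  -- it is enough to find `u` in `W` at distance less than `min η (z - q)`
  have hstar : ∀ y, q ≤ y → y ≤ z → y ∈ WW g q := fun y h1 h2 =>
    WW_star hg hq hz (by rw [uIcc_of_le hzq.le]; exact ⟨h1, h2⟩)
  have hfin : ∀ u l, u ∈ WW g q → |u - q| < min η (z - q) → g^[l] u = z →
      ∃ u ∈ WW g q, |u - q| < η ∧ ∃ l : ℕ, 1 ≤ l ∧ g^[l] u = z := by
    intro u l hu hd hl
    refine ⟨u, hu, hd.trans_le (min_le_left _ _), l, ?_, hl⟩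
    rcases Nat.eq_zero_or_pos l with h | h
    · exfalso
      rw [h] at hl
      have h1 : u = z := hl
      have h2 := hd.trans_le (min_le_right _ _)
      rw [h1, abs_of_pos (by linarith)] at h2
      linarith
    · exact h
  have hm : 0 < min η (z - q) := lt_min hη (by linarith)
  by_cases hR : ∀ δ : ℝ, 0 < δ → z ∈ RR g q δ
  · obtain ⟨l, u, hu, hl⟩ := hR (min η (z - q) / 2) (by positivity)
    have h1 : u ≤ z := by
      have := hu.2
      have := min_le_right η (z - q)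
      linarith
    refine hfin u l (hstar u hu.1 h1) ?_ hl
    rw [abs_of_nonneg (by linarith [hu.1])]
    linarith [hu.2]
  · push Not at hR
    obtain ⟨δ₁, hδ₁, hzR⟩ := hR
    by_cases hL : ∃ y ∈ WW g q, y < q
    · obtain ⟨y, hy, hyq⟩ := hL
      have hstar' : ∀ y', y ≤ y' → y' ≤ q → y' ∈ WW g q := fun y' h1 h2 =>
        WW_star hg hq hy (by rw [uIcc_of_ge hyq.le]; exact ⟨h1, h2⟩)
      obtain ⟨l, u, hu, hl⟩ := hz (min (min η (z - q)) (q - y)) (lt_min hm (by linarith))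
      refine hfin u l ?_ (hu.trans_le (min_le_left _ _)) hl
      have h1 := abs_lt.1 hu
      have h2 := min_le_right (min η (z - q)) (q - y)
      have h3 := min_le_left (min η (z - q)) (q - y)
      have h4 := min_le_right η (z - q)
      rcases le_total u q with h | h
      · exact hstar' u (by linarith [h1.1]) h
      · exact hstar u h (by linarith [h1.2])
    · exfalso
      push Not at hL
      obtain ⟨η', hη', hc⟩ := Metric.continuous_iff.1 hg q δ₁ hδ₁
      have hnot : q - η' / 2 ∉ WW g q := fun h => by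
        have := hL _ h
        linarith
      simp only [WW, mem_ofPred_eq, not_forall] at hnot
      obtain ⟨δ₂, hδ₂, hnot⟩ := hnot
      have hU : ∀ y ∈ UU g q δ₂, q - η' / 2 < y := by
        intro y hy
        by_contra hcon
        push Not at hcon
        apply hnot
        exact UU_star hg hq hy (by rw [uIcc_of_ge (by linarith)]; exact ⟨hcon, by linarith⟩)
      obtain ⟨l, u, hu, hl⟩ := hz (min δ₂ δ₁) (lt_min hδ₂ hδ₁)
      have hu2 : u ∈ UU g q δ₂ := ⟨0, u, hu.trans_le (min_le_left _ _), rfl⟩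
      have hind : ∀ i : ℕ, g^[i] u ∈ RR g q δ₁ ∨ g^[i] u ≤ q := by
        intro i
        induction i with
        | zero =>
          rcases le_total u q with h | h
          · right; exact h
          · left
            refine ⟨0, u, ⟨h, ?_⟩, rfl⟩
            have := (abs_lt.1 (hu.trans_le (min_le_right _ _))).2
            linarith
        | succ i ih =>
          rcases ih with ⟨l', u', hu', hl'⟩ | h
          · left
            refine ⟨l' + 1, u', hu', ?_⟩
            rw [iterate_succ_apply', iterate_succ_apply', hl']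
          · rcases le_total (g^[i + 1] u) q with h2 | h2
            · right; exact h2
            · left
              refine ⟨0, g^[i + 1] u, ⟨h2, ?_⟩, rfl⟩
              have h3 := hU _ (UU_iterate hu2 i)
              have h4 := hc (g^[i] u) (by
                rw [Real.dist_eq, abs_lt]
                constructor <;> linarith)
              rw [hq, Real.dist_eq, ← iterate_succ_apply' g i u] at h4
              have := (abs_lt.1 h4).2
              linarith
      rcases hind l with h | h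
      · rw [hl] at h; exact hzR h
      · rw [hl] at h; linarith

/-- reflected map -/
def refl (g : ℝ → ℝ) : ℝ → ℝ := fun t => -g (-t)

lemma refl_iterate (g : ℝ → ℝ) (l : ℕ) (t : ℝ) : (refl g)^[l] t = -g^[l] (-t) := by
  induction l generalizing t with
  | zero => simp
  | succ l ih =>
    rw [iterate_succ_apply', ih, refl, neg_neg, iterate_succ_apply']

lemma refl_continuous {g : ℝ → ℝ} (hg : Continuous g) : Continuous (refl g) := by
  unfold refl; fun_prop

lemma mem_UU_refl {g : ℝ → ℝ} {q δ z : ℝ} : z ∈ UU g q δ → -z ∈ UU (refl g) (-q) δ := by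
  rintro ⟨l, u, hu, rfl⟩
  refine ⟨l, -u, ?_, ?_⟩
  · rw [show -u - -q = -(u - q) by ring, abs_neg]; exact hu
  · rw [refl_iterate, neg_neg]

lemma refl_refl (g : ℝ → ℝ) : refl (refl g) = g := by
  funext t; simp [refl]

lemma mem_WW_refl {g : ℝ → ℝ} {q z : ℝ} (h : z ∈ WW g q) : -z ∈ WW (refl g) (-q) :=
  fun δ hδ => mem_UU_refl (h δ hδ)

lemma step {g : ℝ → ℝ} (hg : Continuous g) {q : ℝ} (hq : g q = q) {z : ℝ}
    (hz : z ∈ WW g q) {η : ℝ} (hη : 0 < η) :
    ∃ u ∈ WW g q, |u - q| < η ∧ ∃ l : ℕ, 1 ≤ l ∧ g^[l] u = z := by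
  rcases lt_trichotomy q z with h | h | h
  · exact step_right hg hq hz h hη
  · subst h
    exact ⟨q, WW_self, by simpa using hη, 1, le_rfl, hq⟩
  · have hq' : refl g (-q) = -q := by simp [refl, hq]
    obtain ⟨u, hu, hd, l, hl, hul⟩ := step_right (refl_continuous hg) hq' (mem_WW_refl hz)
      (by linarith : -q < -z) hη
    refine ⟨-u, ?_, ?_, l, hl, ?_⟩
    · have := mem_WW_refl hu
      rwa [refl_refl, neg_neg] at this
    · rw [show -u - q = -(u - -q) by ring, abs_neg]; exact hd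
    · rw [refl_iterate] at hul
      linarith

/-- closest preimage -/
lemma exists_mem_WW_right {g : ℝ → ℝ} (hg : Continuous g) {q : ℝ} (hq : g q = q) {Z : Set ℝ}
    (hZ : IsClosed Z) (h : ∀ δ : ℝ, 0 < δ → ∃ z ∈ UU g q δ, z ∈ Z ∧ q ≤ z) :
    ∃ z ∈ WW g q, z ∈ Z := by
  have hne : (Z ∩ Ici q).Nonempty := by
    obtain ⟨z, -, h1, h2⟩ := h 1 one_pos
    exact ⟨z, h1, h2⟩
  have hbd : BddBelow (Z ∩ Ici q) := ⟨q, fun y hy => hy.2⟩
  have hmem := (hZ.inter isClosed_Ici).csInf_mem hne hbd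
  refine ⟨sInf (Z ∩ Ici q), fun δ hδ => ?_, hmem.1⟩
  obtain ⟨z, h1, h2, h3⟩ := h δ hδ
  refine UU_star hg hq h1 ?_
  rw [uIcc_of_le h3]
  exact ⟨hmem.2, csInf_le hbd ⟨h2, h3⟩⟩

lemma exists_mem_WW {g : ℝ → ℝ} (hg : Continuous g) {q : ℝ} (hq : g q = q) {Z : Set ℝ}
    (hZ : IsClosed Z) (h : ∀ δ : ℝ, 0 < δ → ∃ z ∈ UU g q δ, z ∈ Z) :
    ∃ z ∈ WW g q, z ∈ Z := by
  by_cases hR : ∀ δ : ℝ, 0 < δ → ∃ z ∈ UU g q δ, z ∈ Z ∧ q ≤ z
  · exact exists_mem_WW_right hg hq hZ hR
  · push Not at hR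
    obtain ⟨δ₀, hδ₀, hR⟩ := hR
    have hq' : refl g (-q) = -q := by simp [refl, hq]
    have hZ' : IsClosed ((fun t : ℝ => -t) ⁻¹' Z) := hZ.preimage continuous_neg
    obtain ⟨z, hz, hzZ⟩ := exists_mem_WW_right (refl_continuous hg) hq' hZ' (by
      intro δ hδ
      obtain ⟨z, ⟨l, u, hu, hlz⟩, hzZ⟩ := h (min δ δ₀) (lt_min hδ hδ₀)
      have h1 : z ∈ UU g q δ := ⟨l, u, hu.trans_le (min_le_left _ _), hlz⟩
      have h2 : z ∈ UU g q δ₀ := ⟨l, u, hu.trans_le (min_le_right _ _), hlz⟩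
      refine ⟨-z, mem_UU_refl h1, by simpa using hzZ, ?_⟩
      have := hR z h2 hzZ
      linarith)
    refine ⟨-z, ?_, hzZ⟩
    have := mem_WW_refl hz
    rwa [refl_refl, neg_neg] at this

/-- a periodic point in `TT` is in `SA` -/
lemma periodic_mem_SA {F : ℝ → ℝ} (hF : Continuous F) {x q : ℝ} {p : ℕ} (hp : 0 < p)
    (hq : F^[p] q = q) (hT : q ∈ TT F x) : q ∈ SA F x := by
  set g := F^[p] with hg
  have hgc : Continuous g := hF.iterate p
  -- a residue `s`
  have hs : ∃ s : ℕ, 1 ≤ s ∧ s ≤ p ∧ ∀ δ : ℝ, 0 < δ → ∃ z ∈ UU g q δ, F^[s] z = x := by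
    by_contra hcon
    push Not at hcon
    have hch : ∀ s : ℕ, ∃ δ : ℝ, 0 < δ ∧ (1 ≤ s → s ≤ p → ∀ z ∈ UU g q δ, F^[s] z ≠ x) := by
      intro s
      by_cases h : 1 ≤ s ∧ s ≤ p
      · obtain ⟨δ, hδ, h'⟩ := hcon s h.1 h.2
        exact ⟨δ, hδ, fun _ _ => h'⟩
      · exact ⟨1, one_pos, fun h1 h2 => absurd ⟨h1, h2⟩ h⟩
    choose δ hδ hδ' using hch
    have hne : (Finset.range (p + 1)).Nonempty := ⟨0, by simp⟩
    set D := (Finset.range (p + 1)).inf' hne δ with hD
    have hDpos : 0 < D := by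
      rw [hD, Finset.lt_inf'_iff]
      exact fun s _ => hδ s
    obtain ⟨k, hk, u, hu, hux⟩ := hT D hDpos 1
    -- `k = p l + s` with `1 ≤ s ≤ p`
    set s := (k - 1) % p + 1 with hsdef
    set l := (k - 1) / p with hldef
    have hkl : k = s + p * l := by
      have := Nat.div_add_mod (k - 1) p
      rw [← hldef] at this
      omega
    have hsp : s ≤ p := by
      have := Nat.mod_lt (k - 1) hp
      omega
    have hs1 : 1 ≤ s := by omega
    refine hδ' s hs1 hsp (g^[l] u) ⟨l, u, ?_, rfl⟩ ?_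
    · refine hu.trans_le ?_
      exact Finset.inf'_le _ (Finset.mem_range.2 (by omega))
    · rw [hg, ← iterate_mul, ← iterate_add_apply, ← hkl]
      exact hux
  obtain ⟨s, hs1, -, hs⟩ := hs
  obtain ⟨z, hzW, hzx⟩ := exists_mem_WW (Z := {z | F^[s] z = x}) hgc hq
    (isClosed_eq (hF.iterate s) continuous_const) hs
  -- build the sequence
  have hstep : ∀ (n : ℕ) (w : {w : ℝ // w ∈ WW g q}), ∃ u : {w : ℝ // w ∈ WW g q},
      |u.1 - q| < 1 / (n + 1) ∧ ∃ l : ℕ, 1 ≤ l ∧ g^[l] u.1 = w.1 := by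
    intro n w
    obtain ⟨u, hu, h1, h2⟩ := step hgc hq w.2 (by positivity : (0 : ℝ) < 1 / (n + 1))
    exact ⟨⟨u, hu⟩, h1, h2⟩
  choose nxt hn1 hn2 using hstep
  let w : ℕ → {w : ℝ // w ∈ WW g q} := fun n => Nat.rec ⟨z, hzW⟩ (fun n w => nxt n w) n
  have hw : ∀ n, w (n + 1) = nxt n (w n) := fun n => rfl
  have hl : ∀ n, ∃ l : ℕ, 1 ≤ l ∧ g^[l] (w (n + 1)).1 = (w n).1 := fun n => by
    rw [hw]; exact hn2 n (w n)
  choose l hl1 hl2 using hl
  let v : ℕ → ℝ := fun n => Nat.casesOn n x (fun n => (w n).1)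
  let m : ℕ → ℕ := fun n => Nat.casesOn n s (fun n => p * l n)
  have hm : ∀ k, 1 ≤ m k := by
    intro k
    cases k with
    | zero => exact hs1
    | succ k => exact Nat.mul_pos hp (hl1 k)
  have hv : ∀ k, F^[m k] (v (k + 1)) = v k := by
    intro k
    cases k with
    | zero => exact hzx
    | succ k =>
      change F^[p * l k] (w (k + 1)).1 = (w k).1
      rw [iterate_mul]
      exact hl2 k
  obtain ⟨b, hb0, hb, hbN⟩ := concat hm hv
  have hmono := psum_strictMono hm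
  refine ⟨b, hb0, hb, fun j => psum m (j + 2), fun i j hij => hmono (by omega), ?_⟩
  have h1 : ∀ j, (b ∘ fun j => psum m (j + 2)) j = (w (j + 1)).1 := by
    intro j
    exact hbN (j + 2)
  rw [tendsto_congr h1]
  rw [tendsto_iff_dist_tendsto_zero]
  refine squeeze_zero (fun _ => dist_nonneg) (fun j => ?_) tendsto_one_div_add_atTop_nhds_zero_nat
  rw [Real.dist_eq, hw]
  exact (hn1 j (w j)).le

end Pool.Agent.Q188.SA
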