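import Pool.Agent.Q188.SA.Defs

/-!
# Periodic points in the special alpha-limit sets
-/

set_option autoImplicit false

open Set Filter Topology Function

namespace Pool.Agent.Q188.SA

lemma cross {F : ℝ → ℝ} (hF : Continuous F) {x u v e : ℝ} (he : e ∈ TT F x) (h1 : F u < e)
    (h2 : e < F v) : ∃ y ∈ uIcc u v, y ∈ TT F x := by
  have hstep : ∀ N : ℕ, ∃ w' ∈ uIcc u v, ∃ k, N ≤ k ∧ F^[k] w' = x := by
    intro N
    obtain ⟨k, hk, w, hw, hwx⟩ := he (min (e - F u) (F v - e)) (lt_min (by linarith)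
      (by linarith)) N
    have h3 := abs_lt.1 (hw.trans_le (min_le_left _ _))
    have h4 := abs_lt.1 (hw.trans_le (min_le_right _ _))
    have h5 : w ∈ uIcc (F u) (F v) := by
      rw [uIcc_of_le (by linarith)]
      constructor <;> linarith [h3.1, h4.2]
    obtain ⟨w', hw', rfl⟩ := intermediate_value_uIcc hF.continuousOn h5
    exact ⟨w', hw', k + 1, by omega, by rw [iterate_succ_apply]; exact hwx⟩
  choose w hw k hk hkx using hstep
  obtain ⟨y, hy, φ, hφ, hlim⟩ := isCompact_uIcc.tendsto_subseq hw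
  refine ⟨y, hy, fun δ hδ N => ?_⟩
  rw [Metric.tendsto_atTop] at hlim
  obtain ⟨m, hm⟩ := hlim δ hδ
  refine ⟨k (φ (max m N)), ?_, w (φ (max m N)), ?_, hkx _⟩
  · exact ((le_max_right m N).trans (hφ.id_le _)).trans (hk _)
  · have := hm (max m N) (le_max_left _ _)
    rwa [Real.dist_eq] at this

/-- `(α, β)` is a component of the complement of `T` -/
structure Gap (T : Set ℝ) (α β : ℝ) : Prop where
  left : α ∈ T
  right : β ∈ T
  lt : α < β
  mid : ∀ y, α < y → y < β → y ∉ T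

lemma gap_map {F : ℝ → ℝ} (hF : Continuous F) {x α β α' β' p : ℝ} (h : Gap (TT F x) α β)
    (h' : Gap (TT F x) α' β') (hp : p ∈ Ioo α β) (hFp : F p ∈ Ioo α' β') :
    ∀ w ∈ Icc α β, F w ∈ Icc α' β' := by
  have h1 : Ioo α β ⊆ {w | F w ∈ Icc α' β'} := by
    intro w hw
    by_contra hcon
    have hsub : uIcc p w ⊆ Ioo α β := by
      intro y hy
      rcases le_total p w with hpw | hpw
      · rw [uIcc_of_le hpw] at hy
        exact ⟨hp.1.trans_le hy.1, hy.2.trans_lt hw.2⟩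
      · rw [uIcc_of_ge hpw] at hy
        exact ⟨hw.1.trans_le hy.1, hy.2.trans_lt hp.2⟩
    have hor : F w < α' ∨ β' < F w := by
      by_contra h2
      push Not at h2
      exact hcon ⟨h2.1, h2.2⟩
    rcases hor with h2 | h2
    · obtain ⟨y, hy, hyT⟩ := cross hF h'.left h2 hFp.1
      rw [uIcc_comm] at hy
      exact h.mid y (hsub hy).1 (hsub hy).2 hyT
    · obtain ⟨y, hy, hyT⟩ := cross hF h'.right hFp.2 h2
      exact h.mid y (hsub hy).1 (hsub hy).2 hyT
  have h2 : IsClosed {w | F w ∈ Icc α' β'} := isClosed_Icc.preimage hF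
  have h3 := closure_minimal h1 h2
  rw [closure_Ioo h.lt.ne] at h3
  exact h3

lemma gap_end {F : ℝ → ℝ} (hF : Continuous F) {x α β α' β' w : ℝ}
    (h' : Gap (TT F x) α' β') (hmap : ∀ w ∈ Icc α β, F w ∈ Icc α' β') (hw : w ∈ Icc α β)
    (hwT : w ∈ TT F x) : F w = α' ∨ F w = β' := by
  have h1 := hmap w hw
  have h2 := TT_map hF hwT
  by_contra hcon
  push Not at hcon
  exact h'.mid (F w) (lt_of_le_of_ne h1.1 (Ne.symm hcon.1)) (lt_of_le_of_ne h1.2 hcon.2) h2

lemma gap_exists {T : Set ℝ} (hT : IsClosed T) {a c y : ℝ} (ha : a ∈ T) (hc : c ∈ T)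
    (hy : y ∉ T) (hay : a < y) (hyc : y < c) :
    Gap T (sSup (T ∩ Iic y)) (sInf (T ∩ Ici y)) ∧
      y ∈ Ioo (sSup (T ∩ Iic y)) (sInf (T ∩ Ici y)) := by
  have hb1 : BddAbove (T ∩ Iic y) := ⟨y, fun z hz => hz.2⟩
  have hb2 : BddBelow (T ∩ Ici y) := ⟨y, fun z hz => hz.2⟩
  have h1 := (hT.inter isClosed_Iic).csSup_mem ⟨a, ha, hay.le⟩ hb1
  have h2 := (hT.inter isClosed_Ici).csInf_mem ⟨c, hc, hyc.le⟩ hb2
  have h3 : sSup (T ∩ Iic y) < y := lt_of_le_of_ne h1.2 fun h => hy (h ▸ h1.1)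
  have h4 : y < sInf (T ∩ Ici y) := lt_of_le_of_ne h2.2 fun h => hy (h ▸ h2.1)
  refine ⟨⟨h1.1, h2.1, h3.trans h4, fun z hz1 hz2 hzT => ?_⟩, h3, h4⟩
  rcases le_total z y with h | h
  · have := le_csSup hb1 ⟨hzT, h⟩
    linarith
  · have := csInf_le hb2 ⟨hzT, h⟩
    linarith

lemma periodic_near {F : ℝ → ℝ} (hF : Continuous F) {x p a c : ℝ} {n : ℕ} (hn : 1 ≤ n)
    (hp : F^[n] p = p) (ha : a ∈ TT F x) (hc : c ∈ TT F x)
    (hac : ∀ i, F^[i] p ∈ Icc a c) :
    ∃ q ∈ TT F x, F^[2 * n] q = q ∧ ∀ i : ℕ, ∀ t ∈ TT F x,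
      (t ≤ F^[i] p → t ≤ F^[i] q) ∧ (F^[i] p ≤ t → F^[i] q ≤ t) := by
  by_cases hpT : p ∈ TT F x
  · refine ⟨p, hpT, ?_, fun i t _ => ⟨id, id⟩⟩
    rw [two_mul, iterate_add_apply, hp, hp]
  have hnot : ∀ i, F^[i] p ∉ TT F x := by
    intro i hi
    apply hpT
    have h1 := TT_iterate hF hi (n * i - i + 0)
    have h2 : n * i - i + 0 + i = n * i := by
      have := Nat.le_mul_of_pos_left i hn
      omega
    rw [← iterate_add_apply, h2, iterate_mul, Function.iterate_fixed hp i] at h1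
    exact h1
  have hgap : ∀ i, Gap (TT F x) (sSup (TT F x ∩ Iic (F^[i] p))) (sInf (TT F x ∩ Ici (F^[i] p))) ∧
      F^[i] p ∈ Ioo (sSup (TT F x ∩ Iic (F^[i] p))) (sInf (TT F x ∩ Ici (F^[i] p))) := by
    intro i
    have h1 := hac i
    apply gap_exists (TT_closed F x) ha hc (hnot i)
    · exact lt_of_le_of_ne h1.1 fun h => hnot i (h ▸ ha)
    · exact lt_of_le_of_ne h1.2 fun h => hnot i (h.symm ▸ hc)
  set A : ℕ → ℝ := fun i => sSup (TT F x ∩ Iic (F^[i] p)) with hA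
  set B : ℕ → ℝ := fun i => sInf (TT F x ∩ Ici (F^[i] p)) with hB
  have hG : ∀ i, Gap (TT F x) (A i) (B i) := fun i => (hgap i).1
  have hI : ∀ i, F^[i] p ∈ Ioo (A i) (B i) := fun i => (hgap i).2
  have hmap : ∀ i, ∀ w ∈ Icc (A i) (B i), F w ∈ Icc (A (i + 1)) (B (i + 1)) := fun i =>
    gap_map hF (hG i) (hG (i + 1)) (hI i) (by
      have := hI (i + 1)
      rwa [iterate_succ_apply'] at this)
  have hend : ∀ q, (q = A 0 ∨ q = B 0) → ∀ i, F^[i] q = A i ∨ F^[i] q = B i := by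
    intro q hq i
    induction i with
    | zero => exact hq
    | succ i ih =>
      rw [iterate_succ_apply']
      rcases ih with h | h
      · rw [h]
        exact gap_end hF (hG (i + 1)) (hmap i) ⟨le_rfl, (hG i).lt.le⟩ (hG i).left
      · rw [h]
        exact gap_end hF (hG (i + 1)) (hmap i) ⟨(hG i).lt.le, le_rfl⟩ (hG i).right
  have hAn : A n = A 0 := by
    simp only [hA, hp]; rfl
  have hBn : B n = B 0 := by
    simp only [hB, hp]; rfl
  have hq : ∃ q, (q = A 0 ∨ q = B 0) ∧ F^[n] (F^[n] q) = q := by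
    have h1 := hend (A 0) (Or.inl rfl) n
    have h2 := hend (B 0) (Or.inr rfl) n
    rw [hAn, hBn] at h1 h2
    rcases h1 with h1 | h1
    · exact ⟨A 0, Or.inl rfl, by rw [h1, h1]⟩
    · rcases h2 with h2 | h2
      · exact ⟨A 0, Or.inl rfl, by rw [h1, h2]⟩
      · exact ⟨B 0, Or.inr rfl, by rw [h2, h2]⟩
  obtain ⟨q, hq0, hq2⟩ := hq
  refine ⟨q, ?_, ?_, fun i t ht => ?_⟩
  · rcases hq0 with h | h
    · rw [h]; exact (hG 0).left
    · rw [h]; exact (hG 0).right
  · rw [two_mul, iterate_add_apply]; exact hq2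
  · have h1 := hend q hq0 i
    have h2 : F^[i] q ∈ Icc (A i) (B i) := by
      rcases h1 with h | h
      · rw [h]; exact ⟨le_rfl, (hG i).lt.le⟩
      · rw [h]; exact ⟨(hG i).lt.le, le_rfl⟩
    constructor
    · intro h
      have h3 : t ≤ A i := by
        by_contra hcon
        push Not at hcon
        exact (hG i).mid t hcon (h.trans_lt (hI i).2) ht
      exact h3.trans h2.1
    · intro h
      have h3 : B i ≤ t := by
        by_contra hcon
        push Not at hcon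
        exact (hG i).mid t ((hI i).1.trans_le h) hcon ht
      exact h2.2.trans h3

/-! ### Itineraries -/

lemma sub_aux {F : ℝ → ℝ} (hF : Continuous F) {y₀ y₁ s t : ℝ} (hy : y₀ ≤ y₁) (h0 : F y₀ = s)
    (h1 : F y₁ = t) (hst : s ≤ t) :
    ∃ u v, y₀ ≤ u ∧ u ≤ v ∧ v ≤ y₁ ∧ F '' Icc u v = Icc s t := by
  have hS1 : IsClosed ({y | F y = t} ∩ Icc y₀ y₁) :=
    (isClosed_eq hF continuous_const).inter isClosed_Icc
  have hb1 : BddBelow ({y | F y = t} ∩ Icc y₀ y₁) := ⟨y₀, fun z hz => hz.2.1⟩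
  have hB := hS1.csInf_mem ⟨y₁, h1, hy, le_rfl⟩ hb1
  set B := sInf ({y | F y = t} ∩ Icc y₀ y₁) with hBdef
  have hBt : F B = t := hB.1
  have hS2 : IsClosed ({y | F y = s} ∩ Icc y₀ B) :=
    (isClosed_eq hF continuous_const).inter isClosed_Icc
  have hb2 : BddAbove ({y | F y = s} ∩ Icc y₀ B) := ⟨B, fun z hz => hz.2.2⟩
  have hA := hS2.csSup_mem ⟨y₀, h0, le_rfl, hB.2.1⟩ hb2
  set A := sSup ({y | F y = s} ∩ Icc y₀ B) with hAdef
  have hAs : F A = s := hA.1
  have hAB : A ≤ B := hA.2.2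
  refine ⟨A, B, hA.2.1, hAB, hB.2.2, ?_⟩
  apply Subset.antisymm
  · rintro _ ⟨y, hy', rfl⟩
    constructor
    · by_contra hcon
      push Not at hcon
      obtain ⟨y', hy1, hy2⟩ := intermediate_value_Icc hy'.2 hF.continuousOn
        (show s ∈ Icc (F y) (F B) from ⟨hcon.le, by rw [hBt]; exact hst⟩)
      have h3 : y' ≤ A := le_csSup hb2 ⟨hy2, (hA.2.1.trans hy'.1).trans hy1.1, hy1.2⟩
      have h4 : y' = y := le_antisymm (h3.trans hy'.1) hy1.1
      rw [h4] at hy2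
      linarith
    · by_contra hcon
      push Not at hcon
      obtain ⟨y', hy1, hy2⟩ := intermediate_value_Icc hy'.1 hF.continuousOn
        (show t ∈ Icc (F A) (F y) from ⟨by rw [hAs]; exact hst, hcon.le⟩)
      have h3 : B ≤ y' := csInf_le hb1 ⟨hy2, hA.2.1.trans hy1.1,
        (hy1.2.trans hy'.2).trans hB.2.2⟩
      have h4 : y' = y := le_antisymm hy1.2 (hy'.2.trans h3)
      rw [h4] at hy2
      linarith
  · have := intermediate_value_Icc hAB hF.continuousOn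
    rwa [hAs, hBt] at this

lemma sub {F : ℝ → ℝ} (hF : Continuous F) {u v s t : ℝ} (hst : s ≤ t)
    (hcov : Icc s t ⊆ F '' Icc u v) :
    ∃ u' v', u ≤ u' ∧ u' ≤ v' ∧ v' ≤ v ∧ F '' Icc u' v' = Icc s t := by
  obtain ⟨y₀, hy₀, h0⟩ := hcov (left_mem_Icc.2 hst)
  obtain ⟨y₁, hy₁, h1⟩ := hcov (right_mem_Icc.2 hst)
  rcases le_total y₀ y₁ with h | h
  · obtain ⟨u', v', h2, h3, h4, h5⟩ := sub_aux hF h h0 h1 hst
    exact ⟨u', v', hy₀.1.trans h2, h3, h4.trans hy₁.2, h5⟩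
  · obtain ⟨u', v', h2, h3, h4, h5⟩ := sub_aux (F := fun y => -F y) (by fun_prop) h
      (by simp only [h1]) (by simp only [h0]) (neg_le_neg hst)
    refine ⟨u', v', hy₁.1.trans h2, h3, h4.trans hy₀.2, ?_⟩
    have h6 : F '' Icc u' v' = (fun y => -y) '' ((fun y => -F y) '' Icc u' v') := by
      rw [image_image]
      simp
    rw [h6, h5]
    simp

lemma chain {F : ℝ → ℝ} (hF : Continuous F) {i₀ i₁ j₀ j₁ : ℝ} (hi : i₀ ≤ i₁)
    (hJJ : Icc j₀ j₁ ⊆ F '' Icc j₀ j₁) (hJI : Icc i₀ i₁ ⊆ F '' Icc j₀ j₁) (n : ℕ) :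
    ∃ u v, u ≤ v ∧ F^[n + 1] '' Icc u v = Icc i₀ i₁ ∧
      ∀ i, i < n + 1 → F^[i] '' Icc u v ⊆ Icc j₀ j₁ := by
  induction n with
  | zero =>
    obtain ⟨u, v, h1, h2, h3, h4⟩ := sub hF hi hJI
    refine ⟨u, v, h2, h4, fun i hi => ?_⟩
    have : i = 0 := by omega
    subst this
    rw [iterate_zero, image_id]
    exact Icc_subset_Icc h1 h3
  | succ n ih =>
    obtain ⟨u, v, huv, h1, h2⟩ := ih
    have h3 : Icc u v ⊆ Icc j₀ j₁ := by
      have := h2 0 (by omega)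
      rwa [iterate_zero, image_id] at this
    obtain ⟨u', v', h4, h5, h6, h7⟩ := sub hF huv (h3.trans hJJ)
    refine ⟨u', v', h5, ?_, fun i hi => ?_⟩
    · rw [iterate_succ F (n + 1), image_comp, h7, h1]
    · cases i with
      | zero =>
        rw [iterate_zero, image_id]
        exact Icc_subset_Icc h4 h6
      | succ i =>
        rw [iterate_succ, image_comp, h7]
        exact h2 i (by omega)

lemma fixed_of_cover {F : ℝ → ℝ} (hF : Continuous F) {u v : ℝ} (huv : u ≤ v)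
    (h : Icc u v ⊆ F '' Icc u v) : ∃ p ∈ Icc u v, F p = p := by
  obtain ⟨s, hs, hsu⟩ := h (left_mem_Icc.2 huv)
  obtain ⟨t, ht, htv⟩ := h (right_mem_Icc.2 huv)
  have hc : ContinuousOn (fun y => F y - y) (uIcc s t) := by fun_prop
  have h0 : (0 : ℝ) ∈ uIcc (F s - s) (F t - t) := by
    rw [uIcc_of_le (by linarith [hs.1, ht.2])]
    constructor <;> linarith [hs.1, ht.2]
  obtain ⟨p, hp, hp0⟩ := intermediate_value_uIcc hc h0
  refine ⟨p, uIcc_subset_Icc hs ht hp, ?_⟩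
  simp only at hp0
  linarith

lemma itinerary {F : ℝ → ℝ} (hF : Continuous F) {i₀ i₁ j₀ j₁ : ℝ} (hi : i₀ ≤ i₁)
    (hJJ : Icc j₀ j₁ ⊆ F '' Icc j₀ j₁) (hJI : Icc i₀ i₁ ⊆ F '' Icc j₀ j₁)
    (hIJ : Icc j₀ j₁ ⊆ F '' Icc i₀ i₁) {n : ℕ} (hn : 2 ≤ n) :
    ∃ p ∈ Icc i₀ i₁, F^[n] p = p ∧ ∀ i, 1 ≤ i → i < n → F^[i] p ∈ Icc j₀ j₁ := by
  obtain ⟨m, rfl⟩ : ∃ m, n = m + 2 := ⟨n - 2, by omega⟩
  obtain ⟨u, v, huv, h1, h2⟩ := chain hF hi hJJ hJI m
  have h3 : Icc u v ⊆ Icc j₀ j₁ := by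
    have := h2 0 (by omega)
    rwa [iterate_zero, image_id] at this
  obtain ⟨u', v', h4, h5, h6, h7⟩ := sub hF huv (h3.trans hIJ)
  have h8 : F^[m + 2] '' Icc u' v' = Icc i₀ i₁ := by
    rw [iterate_succ F (m + 1), image_comp, h7, h1]
  obtain ⟨p, hp, hpp⟩ := fixed_of_cover (hF.iterate (m + 2)) h5
    (by rw [h8]; exact Icc_subset_Icc h4 h6)
  refine ⟨p, Icc_subset_Icc h4 h6 hp, hpp, fun i hi1 hi2 => ?_⟩
  obtain ⟨i, rfl⟩ : ∃ i', i = i' + 1 := ⟨i - 1, by omega⟩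
  rw [iterate_succ_apply]
  apply h2 i (by omega)
  refine mem_image_of_mem _ ?_
  rw [← h7]
  exact mem_image_of_mem _ hp

/-- least period -/
def HasLeastPeriod (f : ℝ → ℝ) (q : ℝ) (n : ℕ) : Prop :=
  1 ≤ n ∧ f^[n] q = q ∧ ∀ m, 1 ≤ m → m < n → f^[m] q ≠ q

lemma hasLeastPeriod_minimal {F : ℝ → ℝ} {q : ℝ} {n : ℕ} (hn : 0 < n) (h : F^[n] q = q) :
    HasLeastPeriod F q (minimalPeriod F q) := by
  have h0 : 0 < minimalPeriod F q := IsPeriodicPt.minimalPeriod_pos hn h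
  refine ⟨h0, isPeriodicPt_minimalPeriod F q, fun m hm1 hm2 hm => ?_⟩
  exact absurd (IsPeriodicPt.minimalPeriod_le hm1 hm) (not_le.2 hm2)

/-- the main statement on the line -/
lemma core {F : ℝ → ℝ} (hF : Continuous F) {x b : ℝ} (hb3 : F (F (F b)) = b)
    (hbt : (F (F b) < b ∧ b < F b) ∨ (F b < b ∧ b < F (F b)))
    (hb : b ∈ SA F x) {n : ℕ} (hn : 1 ≤ n) :
    ∃ q m, HasLeastPeriod F q m ∧ (m = n ∨ m = 2 * n) ∧ ∀ i, F^[i] q ∈ SA F x := by
  set c := F b with hc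
  set a := F c with ha
  have haT : a ∈ TT F x := SA_subset_TT F x (SA_iterate hF hb 2)
  have hcT : c ∈ TT F x := SA_subset_TT F x (SA_iterate hF hb 1)
  have hbT : b ∈ TT F x := SA_subset_TT F x hb
  have hbc : b ≠ c := by rcases hbt with h | h <;> [exact h.2.ne; exact h.1.ne']
  have hab : a ≠ b := by rcases hbt with h | h <;> [exact h.1.ne; exact h.2.ne']
  have haJ : a ∉ uIcc b c := by
    rcases hbt with h | h
    · rw [uIcc_of_le h.2.le]; exact fun h' => absurd h'.1 (not_le.2 h.1)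
    · rw [uIcc_of_ge h.1.le]; exact fun h' => absurd h'.2 (not_le.2 h.2)
  have hIJ : ∀ y, y ∈ uIcc a b → y ∈ uIcc b c → y = b := by
    intro y h1 h2
    rcases hbt with h | h
    · rw [uIcc_of_le h.1.le] at h1
      rw [uIcc_of_le h.2.le] at h2
      exact le_antisymm h1.2 h2.1
    · rw [uIcc_of_ge h.2.le] at h1
      rw [uIcc_of_ge h.1.le] at h2
      exact le_antisymm h2.2 h1.1
  have hIa : uIcc a b ⊆ uIcc c a := by
    rcases hbt with h | h
    · rw [uIcc_of_le h.1.le, uIcc_of_ge (h.1.trans h.2).le]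
      exact Icc_subset_Icc le_rfl h.2.le
    · rw [uIcc_of_ge h.2.le, uIcc_of_le (h.1.trans h.2).le]
      exact Icc_subset_Icc h.1.le le_rfl
  have hJa : uIcc b c ⊆ uIcc c a := by
    rcases hbt with h | h
    · rw [uIcc_of_le h.2.le, uIcc_of_ge (h.1.trans h.2).le]
      exact Icc_subset_Icc h.1.le le_rfl
    · rw [uIcc_of_ge h.1.le, uIcc_of_le (h.1.trans h.2).le]
      exact Icc_subset_Icc le_rfl h.2.le
  have hcov1 : uIcc c a ⊆ F '' uIcc b c := by
    have := intermediate_value_uIcc (a := b) (b := c) hF.continuousOn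
    exact this
  have hcov2 : uIcc b c ⊆ F '' uIcc a b := by
    have h1 := intermediate_value_uIcc (a := a) (b := b) hF.continuousOn
    rwa [hb3, ← hc] at h1
  -- the general conclusion
  have hfinish : ∀ q ∈ TT F x, F^[2 * n] q = q →
      (minimalPeriod F q = n ∨ minimalPeriod F q = 2 * n) →
      ∃ q m, HasLeastPeriod F q m ∧ (m = n ∨ m = 2 * n) ∧ ∀ i, F^[i] q ∈ SA F x := by
    intro q hq hq2 hmin
    have hSA := periodic_mem_SA hF (by omega : 0 < 2 * n) hq2 hq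
    exact ⟨q, _, hasLeastPeriod_minimal (by omega : 0 < 2 * n) hq2, hmin,
      fun i => SA_iterate hF hSA i⟩
  have hdvd : ∀ q, F^[2 * n] q = q → minimalPeriod F q ∣ 2 * n := fun q hq =>
    IsPeriodicPt.minimalPeriod_dvd hq
  have hIbd : ∀ y, y ∈ uIcc c a → y ∈ Icc (min a c) (max a c) := by
    intro y hy
    rw [uIcc_comm] at hy
    exact hy
  have hminT : min a c ∈ TT F x := by rcases min_choice a c with h | h <;> rw [h] <;> assumption
  have hmaxT : max a c ∈ TT F x := by rcases max_choice a c with h | h <;> rw [h] <;> assumption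
  -- transfer of position
  have htrans : ∀ {s t y z : ℝ}, s ∈ TT F x → t ∈ TT F x →
      (∀ r ∈ TT F x, (r ≤ y → r ≤ z) ∧ (y ≤ r → z ≤ r)) → y ∈ uIcc s t → z ∈ uIcc s t := by
    intro s t y z hs ht h hy
    have h1 : min s t ∈ TT F x := by rcases min_choice s t with h | h <;> rw [h] <;> assumption
    have h2 : max s t ∈ TT F x := by rcases max_choice s t with h | h <;> rw [h] <;> assumption
    exact ⟨(h _ h1).1 hy.1, (h _ h2).2 hy.2⟩
  rcases Nat.lt_or_ge n 2 with hn2 | hn2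
  · -- `n = 1`
    have hn1 : n = 1 := by omega
    subst hn1
    obtain ⟨p, hp, hpp⟩ := fixed_of_cover hF (inf_le_sup (a := b) (b := c))
      (hJa.trans hcov1)
    have hfix : ∀ i, F^[i] p = p := fun i => Function.iterate_fixed hpp i
    obtain ⟨q, hq, hq2, -⟩ := periodic_near hF le_rfl (hfix 1) hminT hmaxT (fun i => by
      rw [hfix]; exact hIbd p (hJa hp))
    refine hfinish q hq hq2 ?_
    have h1 := hdvd q hq2
    have h2 := Nat.le_of_dvd (by norm_num) h1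
    have h3 : 0 < minimalPeriod F q := IsPeriodicPt.minimalPeriod_pos (by norm_num) hq2
    omega
  by_cases hn3 : n = 3
  · subst hn3
    have hq3 : F^[3] b = b := hb3
    refine ⟨b, 3, ⟨by norm_num, hq3, fun m hm1 hm2 => ?_⟩, Or.inl rfl,
      fun i => SA_iterate hF hb i⟩
    have : m = 1 ∨ m = 2 := by omega
    rcases this with rfl | rfl
    · exact hbc.symm
    · exact hab
  · obtain ⟨p, hp, hpp, hpi⟩ := itinerary hF (inf_le_sup (a := a) (b := b))
      (hJa.trans hcov1) (hIa.trans hcov1) hcov2 hn2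
    have hpos : ∀ i, (n ∣ i → F^[i] p ∈ uIcc a b) ∧ (¬ n ∣ i → F^[i] p ∈ uIcc b c) := by
      intro i
      have h1 : F^[i] p = F^[i % n] p :=
        ((show IsPeriodicPt F n p from hpp).iterate_mod_apply i).symm
      constructor
      · intro h
        rw [h1, Nat.mod_eq_zero_of_dvd h]
        exact hp
      · intro h
        rw [h1]
        apply hpi
        · rw [Nat.one_le_iff_ne_zero]
          exact fun h0 => h (Nat.dvd_of_mod_eq_zero h0)
        · exact Nat.mod_lt _ (by omega)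
    have hin : ∀ i, F^[i] p ∈ Icc (min a c) (max a c) := by
      intro i
      by_cases h : n ∣ i
      · exact hIbd _ (hIa ((hpos i).1 h))
      · exact hIbd _ (hJa ((hpos i).2 h))
    obtain ⟨q, hq, hq2, hqi⟩ := periodic_near hF hn hpp hminT hmaxT hin
    have hposq : ∀ i, (n ∣ i → F^[i] q ∈ uIcc a b) ∧ (¬ n ∣ i → F^[i] q ∈ uIcc b c) := fun i =>
      ⟨fun h => htrans haT hbT (hqi i) ((hpos i).1 h),
        fun h => htrans hbT hcT (hqi i) ((hpos i).2 h)⟩
    refine hfinish q hq hq2 ?_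
    set m := minimalPeriod F q with hm
    have hmd := hdvd q hq2
    have hnm : n ∣ m := by
      by_contra hcon
      have h1 := (hposq m).2 hcon
      have h2 : F^[m] q = q := isPeriodicPt_minimalPeriod F q
      rw [h2] at h1
      have h3 := (hposq 0).1 (dvd_zero n)
      have h4 : q = b := hIJ q h3 h1
      rcases Nat.lt_or_ge n 3 with h5 | h5
      · have h6 : n = 2 := by omega
        rw [h6, h4] at hq2
        have h7 : F^[2 * 2] b = F (F (F (F b))) := rfl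
        rw [h7, hb3] at hq2
        exact hbc hq2.symm
      · have h6 : ¬ n ∣ 2 := fun h => by
          have := Nat.le_of_dvd (by norm_num) h
          omega
        have h7 := (hposq 2).2 h6
        rw [h4] at h7
        exact haJ h7
    obtain ⟨k, hk⟩ := hnm
    rw [← hm, hk] at hmd
    have h5 : k ∣ 2 := by
      have h6 : n * k ∣ n * 2 := by rwa [mul_comm n 2]
      exact Nat.dvd_of_mul_dvd_mul_left (by omega) h6
    have h6 := Nat.le_of_dvd (by norm_num) h5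
    have h7 : k ≠ 0 := by
      rintro rfl
      norm_num at h5
    have h8 : k = 1 ∨ k = 2 := by omega
    rcases h8 with rfl | rfl
    · left; rw [hk, mul_one]
    · right; rw [hk, mul_comm]

end Pool.Agent.Q188.SA
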